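import Pool.Agent.P.MP_c09211_an.Tay

/-!
Toeplitz forms with a bounded symbol, and the derivative of an injective analytic function.
-/

set_option autoImplicit false

namespace Pool.Agent.P.MP_c09211_an

open Metric Set Finset PowerSeries Complex Filter Topology
open scoped Real ComplexConjugate

theorem circ_mem (θ : ℝ) : circleMap 0 1 θ ∈ closedBall (0 : ℂ) 1 :=
  circleMap_mem_closedBall 0 zero_le_one θ

theorem circ_cont {G : ℂ → ℂ} (hG : DifferentiableOn ℂ G (closedBall 0 1)) :
    Continuous fun θ => G (circleMap 0 1 θ) :=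
  hG.continuousOn.comp_continuous (continuous_circleMap 0 1) circ_mem

theorem avg_coeff {G : ℂ → ℂ} (hG : DifferentiableOn ℂ G (closedBall 0 1)) (n : ℕ) :
    ∫ θ in (0 : ℝ)..2 * π, G (circleMap 0 1 θ) * conj (circleMap 0 1 θ) ^ n =
      2 * π * coeff n (tay G) := by
  have h := hG.circleIntegral_one_div_sub_center_pow_smul one_pos n
  simp only [circleIntegral, deriv_circleMap, smul_eq_mul, sub_zero] at h
  refine mul_left_cancel₀ I_ne_zero ?_
  rw [← intervalIntegral.integral_const_mul]
  simp only [tay, coeff_mk]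
  refine Eq.trans (intervalIntegral.integral_congr fun θ _ => ?_) (h.trans (by ring))
  have h0 : circleMap 0 1 θ ≠ 0 := circleMap_ne_center one_ne_zero
  have h1 : conj (circleMap 0 1 θ) = (circleMap 0 1 θ)⁻¹ := (inv_eq_conj (by simp)).symm
  rw [h1, inv_pow, pow_succ]
  field_simp

theorem avg_conj {G : ℂ → ℂ} (hG : DifferentiableOn ℂ G (closedBall 0 1)) (N : ℕ) (y : ℕ → ℂ) :
    ∫ θ in (0 : ℝ)..2 * π, G (circleMap 0 1 θ) *
      conj (∑ q ∈ range N, conj (y q) * circleMap 0 1 θ ^ q) =
      2 * π * ∑ q ∈ range N, coeff q (tay G) * y q := by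
  simp only [map_sum, map_mul, map_pow, conj_conj, mul_sum]
  rw [intervalIntegral.integral_finsetSum fun q _ => Continuous.intervalIntegrable (by
    have := continuous_conj.comp (continuous_circleMap 0 1)
    exact (circ_cont hG).mul (continuous_const.mul (this.pow q))) _ _]
  refine sum_congr rfl fun q _ => ?_
  rw [← mul_assoc, ← avg_coeff hG, ← intervalIntegral.integral_mul_const]
  exact intervalIntegral.integral_congr fun θ _ => by ring

theorem tay_fin (N : ℕ) (x : ℕ → ℂ) {q : ℕ} (hq : q < N) :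
    coeff q (tay fun z => ∑ p ∈ range N, x p * z ^ p) = x q := by
  rw [tay_sum _ fun p _ => by fun_prop, map_sum, sum_eq_single q]
  · rw [tay_cmul _ (by fun_prop), tay_pow (f := fun z => z) (by fun_prop), tay_id]; simp
  · intro p _ hp
    rw [tay_cmul _ (by fun_prop), tay_pow (f := fun z => z) (by fun_prop), tay_id]
    simp [coeff_X_pow, hp.symm]
  · exact fun h => absurd (mem_range.mpr hq) h

theorem parseval (N : ℕ) (x : ℕ → ℂ) :
    ∫ θ in (0 : ℝ)..2 * π, ‖∑ p ∈ range N, x p * circleMap 0 1 θ ^ p‖ ^ 2 =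
      2 * π * ∑ p ∈ range N, ‖x p‖ ^ 2 := by
  have h := avg_conj (G := fun z => ∑ p ∈ range N, x p * z ^ p) (by fun_prop) N fun q => conj (x q)
  simp only [conj_conj, mul_conj, normSq_eq_norm_sq] at h
  rw [sum_congr rfl fun q hq => by rw [tay_fin N x (mem_range.mp hq), mul_conj, normSq_eq_norm_sq],
    intervalIntegral.integral_ofReal] at h
  exact_mod_cast h

theorem toeplitz {g : ℂ → ℂ} (hg : DifferentiableOn ℂ g (closedBall 0 1)) {M : ℝ}
    (hM : ∀ z ∈ sphere (0 : ℂ) 1, ‖g z‖ ≤ M) (N : ℕ) (x : ℂ⟦X⟧) (y : ℕ → ℂ) :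
    ‖∑ q ∈ range N, coeff q (tay g * x) * y q‖ ≤
      M * (∑ p ∈ range N, ‖coeff p x‖ ^ 2 + ∑ q ∈ range N, ‖y q‖ ^ 2) / 2 := by
  have h := avg_conj (G := fun z => g z * ∑ p ∈ range N, coeff p x * z ^ p) (by fun_prop) N y
  have ga : AnalyticAt ℂ g 0 := hg.analyticAt (closedBall_mem_nhds _ one_pos)
  rw [tay_mul ga (by fun_prop), sum_congr rfl (g := fun q => coeff q (tay g * x) * y q)
    fun q hq => by
      rw [coeff_mul, coeff_mul]
      congr 1
      refine sum_congr rfl fun p hp => ?_
      rw [tay_fin N (fun p => coeff p x) (by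
        have := mem_antidiagonal.mp hp
        have := mem_range.mp hq
        omega)]] at h
  have hc := continuous_circleMap 0 1
  have h2 := intervalIntegral.norm_integral_le_of_norm_le (μ := MeasureTheory.volume)
    (f := fun θ => (g (circleMap 0 1 θ) * ∑ p ∈ range N, coeff p x * circleMap 0 1 θ ^ p) *
      conj (∑ q ∈ range N, conj (y q) * circleMap 0 1 θ ^ q))
    (g := fun θ => M / 2 * (‖∑ p ∈ range N, coeff p x * circleMap 0 1 θ ^ p‖ ^ 2 +
      ‖∑ q ∈ range N, conj (y q) * circleMap 0 1 θ ^ q‖ ^ 2)) Real.two_pi_pos.le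
    (Eventually.of_forall fun θ _ => by
      have a := hM _ (circleMap_mem_sphere 0 zero_le_one θ)
      rw [norm_mul, norm_mul, norm_conj, mul_assoc]
      refine (mul_le_mul a (le_div_iff₀' two_pos |>.mpr (mul_assoc (2 : ℝ) _ _ ▸
        two_mul_le_add_sq _ _)) (by positivity) ((norm_nonneg _).trans a)).trans (le_of_eq ?_)
      ring)
    (Continuous.intervalIntegrable (by fun_prop) _ _)
  rw [h, intervalIntegral.integral_const_mul, intervalIntegral.integral_add
    (Continuous.intervalIntegrable (by fun_prop) _ _)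
    (Continuous.intervalIntegrable (by fun_prop) _ _), parseval, parseval, norm_mul] at h2
  simp only [norm_conj, norm_mul, norm_real, Real.norm_eq_abs, abs_of_pos Real.pi_pos,
    Complex.norm_ofNat] at h2
  refine le_of_mul_le_mul_left (h2.trans (le_of_eq ?_)) Real.two_pi_pos
  ring

/-- The means of Fejer do not increase the supremum. -/
theorem fejer {g : ℂ → ℂ} (hg : DifferentiableOn ℂ g (closedBall 0 1))
    (hM : ∀ z ∈ sphere (0 : ℂ) 1, ‖g z‖ ≤ 1) (N : ℕ) {z : ℂ} (hz : z ∈ sphere (0 : ℂ) 1) :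
    ‖∑ l ∈ range N, ((N - l) * coeff l (tay g)) * z ^ l‖ ≤ N := by
  have hz' := mem_sphere_zero_iff_norm.mp hz
  have h := toeplitz hg hM N (PowerSeries.mk fun p => conj z ^ p) fun q => z ^ q
  simp only [coeff_mk, norm_pow, norm_conj, hz', one_pow, sum_const, card_range, nsmul_eq_mul,
    mul_one, one_mul, add_self_div_two] at h
  refine le_trans (le_of_eq (congrArg _ ?_)) h
  have h1 : conj z * z = 1 := by rw [conj_mul', hz']; simp
  have h2 : ∀ q, coeff q (tay g * PowerSeries.mk fun p => conj z ^ p) * z ^ q =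
      ∑ l ∈ range (q + 1), coeff l (tay g) * z ^ l := fun q => by
    rw [coeff_mul, Finset.Nat.sum_antidiagonal_eq_sum_range_succ
      (fun i j => coeff i (tay g) * coeff j (PowerSeries.mk fun p => conj z ^ p)), sum_mul]
    refine sum_congr rfl fun l hl => ?_
    obtain ⟨k, rfl⟩ := Nat.exists_eq_add_of_le (Nat.lt_succ_iff.mp (mem_range.mp hl))
    rw [coeff_mk, Nat.add_sub_cancel_left, pow_add]
    have : conj z ^ k * z ^ k = 1 := by rw [← mul_pow, h1, one_pow]
    linear_combination coeff l (tay g) * z ^ l * this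
  simp only [h2]
  clear h
  induction N with
  | zero => simp
  | succ N ih =>
    rw [sum_range_succ _ N, sum_range_succ _ N, ← ih, sum_range_succ _ N, ← add_assoc,
      ← sum_add_distrib]
    push_cast
    rw [add_sub_cancel_left, one_mul]
    exact congrArg (· + _) (sum_congr rfl fun l _ => by ring)

theorem deriv_ne_zero_of_injOn {f : ℂ → ℂ} {c : ℂ} {U : Set ℂ} (hf : AnalyticAt ℂ f c)
    (hU : U ∈ 𝓝 c) (hi : InjOn f U) : deriv f c ≠ 0 := by
  have hc := mem_of_mem_nhds hU
  obtain ⟨m, g, ga, g0, hg⟩ := (AnalyticAt.exists_eventuallyEq_pow_smul_nonzero_iff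
    (f := fun z => f z - f c) (hf.sub analyticAt_const)).mpr fun h => by
      have : ∀ᶠ z in 𝓝[≠] c, False := by
        filter_upwards [nhdsWithin_le_nhds h, nhdsWithin_le_nhds hU, self_mem_nhdsWithin]
          with z a b d using d (hi b hc (sub_eq_zero.mp a))
      exact this.exists.elim fun _ => id
  intro hd
  match m with
  | 0 => exact g0 (by simpa using hg.self_of_nhds.symm)
  | 1 =>
    have a : HasDerivAt (fun z => (z - c) * g z) (1 * g c + (c - c) * deriv g c) c :=
      ((hasDerivAt_id c).sub_const c).mul ga.differentiableAt.hasDerivAt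
    have b := (a.congr_of_eventuallyEq (f₁ := fun z => f z - f c) (by
      filter_upwards [hg] with z hz using by simpa using hz)).deriv
    rw [deriv_sub_const, hd] at b
    exact g0 (by simpa using b.symm)
  | m + 2 =>
    set k : ℂ → ℂ := fun z => (g z / g c) ^ ((m + 2 : ℕ) : ℂ)⁻¹ with hk
    have ka : AnalyticAt ℂ k c :=
      (ga.div_const).cpow analyticAt_const (by rw [div_self g0]; exact one_mem_slitPlane)
    have a : HasStrictDerivAt (fun z => (z - c) * k z) (1 * k c + (c - c) * deriv k c) c := by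
      have := ((hasStrictDerivAt_id c).sub (hasStrictDerivAt_const c c)).mul ka.hasStrictDerivAt
      rw [sub_zero] at this
      exact this
    have b := a.map_nhds_eq (by simp [hk, div_self g0])
    have hW : (fun z => (z - c) * k z) '' (U ∩ {z | f z - f c = (z - c) ^ (m + 2) • g z}) ∈
        𝓝 (0 : ℂ) := by
      have := image_mem_map (m := fun z => (z - c) * k z) (inter_mem hU hg)
      rwa [b, sub_self, zero_mul] at this
    obtain ⟨ε, ε0, hε⟩ := Metric.mem_nhds_iff.mp hW
    have hp := Complex.isPrimitiveRoot_exp (m + 2) (by omega)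
    set ζ := exp (2 * π * I / (m + 2 : ℕ))
    have hn : ‖ζ‖ = 1 := hp.norm'_eq_one (by omega)
    have hε2 : ‖((ε / 2 : ℝ) : ℂ)‖ < ε := by
      rw [norm_real, Real.norm_eq_abs, abs_of_pos (by positivity)]; linarith
    obtain ⟨z, ⟨z1, z2⟩, z3⟩ := hε (mem_ball_zero_iff.mpr hε2)
    obtain ⟨w, ⟨w1, w2⟩, w3⟩ := hε (a := ζ * ((ε / 2 : ℝ) : ℂ))
      (mem_ball_zero_iff.mpr (by rwa [norm_mul, hn, one_mul]))
    have key : ∀ z, (z - c) ^ (m + 2) • g z = ((z - c) * k z) ^ (m + 2) * g c := fun z => by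
      rw [mul_pow, hk, cpow_nat_inv_pow _ (by omega), smul_eq_mul, mul_assoc,
        div_mul_cancel₀ _ g0]
    dsimp only at z3 w3
    rw [mem_ofPred_eq, key] at z2 w2
    rw [w3, mul_pow, hp.pow_eq_one, one_mul, ← z3, ← z2] at w2
    rw [hi w1 z1 (sub_left_inj.mp w2), z3] at w3
    refine hp.ne_one (by omega) (mul_right_cancel₀ (b := ((ε / 2 : ℝ) : ℂ)) ?_ ?_)
    · exact_mod_cast (half_pos ε0).ne'
    · rw [← w3, one_mul]

end Pool.Agent.P.MP_c09211_an
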