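import Mathlib

/-!
The objects of the problem.
-/

set_option autoImplicit false

namespace Pool.Agent.P.MP_c09211_an

/-- `P = z + a_2 z^2 + ... + a_n z^n` is univalent in the open unit disc. -/
def Univ (n : ℕ) (P : Polynomial ℂ) : Prop :=
  P.natDegree ≤ n ∧ P.coeff 0 = 0 ∧ P.coeff 1 = 1 ∧
    Set.InjOn (fun z : ℂ => P.eval z) (Metric.ball 0 1)

/-- `A m n` is the largest modulus of the `m`-th coefficient in the class. -/
noncomputable def A (m n : ℕ) : ℝ := sSup {x : ℝ | ∃ P : Polynomial ℂ, Univ n P ∧ x = ‖P.coeff m‖}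

/-- The least `k` with `2 ≤ k ≤ n` and `A m n ≤ 1` for all `k ≤ m ≤ n`. -/
noncomputable def n1 (n : ℕ) : ℕ :=
  sInf {k : ℕ | 2 ≤ k ∧ k ≤ n ∧ ∀ m : ℕ, k ≤ m → m ≤ n → A m n ≤ 1}

end Pool.Agent.P.MP_c09211_an
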