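import Pool.Agent.P.MP_c09211_an.Main

/-!
The coefficient maxima decrease strictly at the end of the range.
-/

set_option autoImplicit false

namespace Pool.Agent.P.MP_c09211_an

open scoped Real

theorem fall_poly {N J : ℕ} (hJ : 2 ≤ J) (hN : J + 2 ≤ N) (h : 2 * J ^ 2 ≤ 3 * N) :
    600 * (N - 1 : ℝ) * (J - 1) ^ 2 * N ^ 2 <
      J ^ 2 * (600 * N ^ 2 - 987 * J ^ 2) * (N + 1 - J : ℝ) := by
  have h' : 2 * (J : ℝ) ^ 2 ≤ 3 * N := by exact_mod_cast h
  have hN' : (J : ℝ) + 2 ≤ N := by exact_mod_cast hN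
  have N0 : (0 : ℝ) < N := by linarith [J.cast_nonneg (α := ℝ)]
  rcases (by omega : J = 2 ∨ J = 3 ∨ J = 4 ∨ 5 ≤ J) with rfl | rfl | rfl | h5
  · push_cast at *
    nlinarith [mul_nonneg (sub_nonneg.mpr hN') (sq_nonneg (N : ℝ)), mul_nonneg (sub_nonneg.mpr hN') N0.le]
  · have : (6 : ℝ) ≤ N := by norm_cast; omega
    push_cast at *
    nlinarith [mul_nonneg (sub_nonneg.mpr this) (sq_nonneg (N : ℝ)), mul_nonneg (sub_nonneg.mpr this) N0.le]
  · have : (11 : ℝ) ≤ N := by norm_cast; omega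
    push_cast at *
    nlinarith [mul_nonneg (sub_nonneg.mpr this) (sq_nonneg (N : ℝ)), mul_nonneg (sub_nonneg.mpr this) N0.le]
  · have h5' : (5 : ℝ) ≤ J := by exact_mod_cast h5
    have a1 : 987 * ((J : ℝ) ^ 2 * J ^ 2) * (N + 1 - J) ≤ 987 * (J ^ 2 * (3 * N / 2)) * N := by
      gcongr <;> linarith
    have a2 : 600 * (J : ℝ) ^ 2 * (J - 1) - 600 * (J - 1) ^ 2 + 1481 * J ^ 2 ≤
        400 * J ^ 2 * (2 * J - 1) := by nlinarith
    have a3 : 400 * (J : ℝ) ^ 2 * (2 * J - 1) ≤ 600 * N * (2 * J - 1) := by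
      gcongr ?_ * _ <;> linarith
    have a4 := mul_le_mul_of_nonneg_right (a2.trans a3) (sq_nonneg (N : ℝ))
    have : 0 < (J : ℝ) ^ 2 * N ^ 2 := by positivity
    nlinarith

theorem fall {n m : ℕ} (h1 : 2 ≤ m) (h2 : m < n) (h : 2 * (n + 1 - m) ^ 2 ≤ 3 * (n + 1)) :
    A (m + 1) n < A m n := by
  refine (A_le (by omega) h2).trans_lt (lt_of_lt_of_le ?_
    (le_A (by omega) h2.le (suff_univ (by omega))))
  have hp := fall_poly (N := n + 1) (J := n + 1 - m) (by omega) (by omega) h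
  have h0 : 0 < Real.sin (π / (n + 1 : ℕ)) := by
    obtain ⟨M, rfl⟩ : ∃ M, n = M + 1 := ⟨n - 1, by omega⟩
    exact sin_pos' M
  have e : (m : ℝ) = (n + 1 : ℕ) - (n + 1 - m : ℕ) := by rw [Nat.cast_sub (by omega)]; ring
  have hJ : (2 : ℝ) ≤ (n + 1 - m : ℕ) := by norm_cast; omega
  have hJN : ((n + 1 - m : ℕ) : ℝ) + 2 ≤ (n + 1 : ℕ) := by norm_cast; omega
  have e' : (n : ℝ) = (n + 1 : ℕ) - 1 := by push_cast; ring
  rw [suff_coeff, if_pos (by omega), Complex.norm_real, Nat.cast_succ m, e, e']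
  generalize ((n + 1 - m : ℕ) : ℝ) = J at *
  generalize ((n + 1 : ℕ) : ℝ) = N at *
  have N0 : 0 < N := by linarith
  have hπ : N * (π / N) = π := mul_div_cancel₀ _ N0.ne'
  rw [sub_sub_cancel, sub_mul N J, hπ, Real.sin_pi_sub]
  refine lt_of_lt_of_le ?_ (le_abs_self _)
  have a0 : 0 < π / N := by positivity
  have a1 := Real.sin_lt a0
  have a2 := Real.sin_ge_sub_cube (x := J * (π / N)) (by positivity)
  have p1 : π ^ 2 ≤ 9.87 := by nlinarith [Real.pi_lt_d4, Real.pi_pos]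
  have b0 : 0 < N - J + 1 := by linarith
  rw [div_lt_div_iff₀ b0 (mul_pos (by linarith) h0)]
  have a5 : (J - 1) ^ 2 * ((N - 1) * (π / N)) ≤
      J * (J * (π / N) - (J * (π / N)) ^ 3 / 6) * (N - J + 1) := by
    have : J * (J * (π / N) - (J * (π / N)) ^ 3 / 6) * (N - J + 1) -
        (J - 1) ^ 2 * ((N - 1) * (π / N)) = π / N * ((J ^ 2 * (600 * N ^ 2 - 100 * π ^ 2 * J ^ 2) *
          (N + 1 - J) - 600 * (N - 1) * (J - 1) ^ 2 * N ^ 2) / (600 * N ^ 2)) := by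
      field_simp
      ring
    rw [← sub_nonneg, this]
    refine mul_nonneg a0.le (div_nonneg (sub_nonneg.mpr (hp.le.trans ?_)) (by positivity))
    gcongr
    · linarith
    · linarith
  calc _ = (J - 1) ^ 2 * ((N - 1) * Real.sin (π / N)) := by ring
    _ < (J - 1) ^ 2 * ((N - 1) * (π / N)) := by gcongr <;> nlinarith
    _ ≤ _ := a5
    _ ≤ _ := by gcongr

end Pool.Agent.P.MP_c09211_an
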