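import Pool.Agent.P.MP_c09211_an.Suffridge

/-!
A coefficient of the polynomial of Suffridge that exceeds one.
-/

set_option autoImplicit false

namespace Pool.Agent.P.MP_c09211_an

open scoped Real

theorem num_gen {N J : ℝ} (hN : 9 ≤ N) (hJ : 0 < J) (h1 : N + 1 ≤ J ^ 2) (h2 : (J - 1) ^ 2 ≤ N)
    (h3 : 10 ≤ N ∨ N + 3 ≤ J ^ 2) : (N - 1) * Real.sin (π / N) < J * Real.sin (J * (π / N)) := by
  have N0 : 0 < N := by linarith
  have a0 : 0 < π / N := by positivity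
  have a1 := Real.sin_lt a0
  have a2 := Real.sin_ge_sub_cube (x := J * (π / N)) (by positivity)
  have p1 : π ^ 2 ≤ 9.87 := by nlinarith [Real.pi_lt_d4, Real.pi_pos]
  have a3 : J ^ 2 ≤ 2 * N := by nlinarith [sq_nonneg (J - 4)]
  have a4 : (J ^ 2) ^ 2 * 9.87 ≤ 6 * N ^ 2 * (J ^ 2 - N + 1) := by
    generalize J ^ 2 = u at *
    rcases h3 with h3 | h3
    · nlinarith [mul_nonneg (sub_nonneg.mpr h1) (sub_nonneg.mpr a3), mul_nonneg
        (sub_nonneg.mpr h1) (show 0 ≤ N ^ 2 - 9 * N by nlinarith)]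
    · nlinarith [mul_nonneg (sub_nonneg.mpr h3) (sub_nonneg.mpr a3), mul_nonneg
        (sub_nonneg.mpr h3) (show 0 ≤ N ^ 2 - 9 * N by nlinarith)]
  have a5 : (N - 1) * (π / N) ≤ J * (J * (π / N) - (J * (π / N)) ^ 3 / 6) := by
    have : J * (J * (π / N) - (J * (π / N)) ^ 3 / 6) - (N - 1) * (π / N) =
        π / N * ((6 * N ^ 2 * (J ^ 2 - N + 1) - (J ^ 2) ^ 2 * π ^ 2) / (6 * N ^ 2)) := by
      field_simp
      ring
    rw [← sub_nonneg, this]
    exact mul_nonneg a0.le (div_nonneg (by nlinarith [sq_nonneg (J ^ 2)]) (by positivity))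
  calc _ < (N - 1) * (π / N) := mul_lt_mul_of_pos_left a1 (by linarith)
    _ ≤ _ := a5
    _ ≤ _ := mul_le_mul_of_nonneg_left a2 hJ.le

theorem num_three {N : ℝ} (h : N = 5 ∨ N = 6 ∨ N = 7 ∨ N = 8) :
    (N - 1) * Real.sin (π / N) < 3 * Real.sin (3 * (π / N)) := by
  have N0 : 5 ≤ N := by rcases h with h | h | h | h <;> linarith
  have a0 : 0 < π / N := by positivity
  have a1 := Real.sin_lt a0
  have a2 := Real.sin_pos_of_pos_of_lt_pi a0 (div_lt_self Real.pi_pos (by linarith))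
  have p1 : π ^ 2 ≤ 9.87 := by nlinarith [Real.pi_lt_d4, Real.pi_pos]
  have a3 : Real.sin (π / N) ^ 2 < (π / N) ^ 2 := by gcongr
  have a4 : 12 * (π / N) ^ 2 ≤ 10 - N := by
    rcases h with h | h | h | h <;> rw [h, div_pow] <;> linarith
  rw [Real.sin_three_mul]
  nlinarith

theorem num {n s : ℕ} (h1 : s ^ 2 ≤ n + 1) (h2 : n + 1 < (s + 1) ^ 2) (h3 : s + 2 ≤ n) :
    (((n + 1 : ℕ) : ℝ) - 1) * Real.sin (π / (n + 1 : ℕ)) <
      (s + 1) * Real.sin ((s + 1) * (π / (n + 1 : ℕ))) := by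
  by_cases hn : n ≤ 7
  · have hs : s = 2 := by
      have : s ≤ 2 := by nlinarith
      have : 2 ≤ s := by nlinarith
      omega
    have := num_three (N := (n + 1 : ℕ)) (by
      have : n = 4 ∨ n = 5 ∨ n = 6 ∨ n = 7 := by omega
      rcases this with h | h | h | h <;> rw [h] <;> norm_num)
    rw [hs]
    convert this using 3 <;> norm_num
  · refine num_gen (by norm_cast; omega) (by positivity) (by exact_mod_cast h2)
      (by rw [add_sub_cancel_right]; exact_mod_cast h1) ?_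
    by_cases h8 : n = 8
    · have : 3 ≤ s := by nlinarith
      right
      norm_cast
      nlinarith
    · left
      norm_cast
      omega

theorem suff_big {n s : ℕ} (h1 : s ^ 2 ≤ n + 1) (h2 : n + 1 < (s + 1) ^ 2) (h3 : s + 2 ≤ n) :
    1 < ‖(suff (n + 1)).coeff (n - s)‖ := by
  have h4 := num h1 h2 h3
  have h0 : 0 < Real.sin (π / (n + 1 : ℕ)) := by
    obtain ⟨M, rfl⟩ : ∃ M, n = M + 1 := ⟨n - 1, by omega⟩
    exact sin_pos' M
  have hn : (0 : ℝ) < ((n + 1 : ℕ) : ℝ) - 1 := by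
    have : (1 : ℝ) ≤ n := by exact_mod_cast (by omega : 1 ≤ n)
    push_cast; linarith
  have h : ((n + 1 : ℕ) : ℝ) * (π / (n + 1 : ℕ)) = π := mul_div_cancel₀ _ (by positivity)
  have e : ((n - s : ℕ) : ℝ) = (n + 1 : ℕ) - (s + 1) := by
    rw [Nat.cast_sub (by omega)]; push_cast; ring
  rw [suff_coeff, if_pos (by omega), Complex.norm_real, e, sub_sub_cancel, sub_mul _ (s + 1 : ℝ), h,
    Real.sin_pi_sub]
  exact ((one_lt_div (mul_pos hn h0)).mpr h4).trans_le (le_abs_self _)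

end Pool.Agent.P.MP_c09211_an
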