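import Pool.Agent.P.MP_c09211_an.Robertson
import Pool.Agent.P.MP_c09211_an.Toep

/-!
The upper bound `m |a_m| ≤ (n + 1 - m) ^ 2` for univalent polynomials of degree at most `n`.
-/

set_option autoImplicit false

namespace Pool.Agent.P.MP_c09211_an

open Metric Set Finset PowerSeries Complex Filter Topology
open scoped ComplexConjugate

theorem pairing {F h : ℂ⟦X⟧} (hF : X * h ^ 2 = F)
    (hh : ∀ N : ℕ, ∑ k ∈ range N, ‖coeff k h‖ ^ 2 ≤ N) {g : ℂ → ℂ}
    (hg : DifferentiableOn ℂ g (closedBall 0 1)) (hM : ∀ z ∈ sphere (0 : ℂ) 1, ‖g z‖ ≤ 1) (j : ℕ) :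
    ‖coeff j (tay g * d⁄dX ℂ F)‖ ≤ (j + 1) ^ 2 := by
  have F0 : coeff 0 F = 0 := by simp [← hF]
  have h1 := toeplitz (g := fun z => ∑ l ∈ range (j + 1),
    ((((j + 1 : ℕ) : ℂ) - l) * coeff l (tay g)) * z ^ l) (by fun_prop)
    (fun z hz => fejer hg hM (j + 1) hz) (j + 1) h fun q => coeff (j - q) h
  set σ := tay fun z => ∑ l ∈ range (j + 1), ((((j + 1 : ℕ) : ℂ) - l) * coeff l (tay g)) * z ^ l
    with hσ
  have h2 : ∑ q ∈ range (j + 1), coeff q (σ * h) * coeff (j - q) h =
      coeff j (tay g * d⁄dX ℂ F) := by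
    rw [← Finset.Nat.sum_antidiagonal_eq_sum_range_succ (fun p q => coeff p (σ * h) * coeff q h),
      ← coeff_mul, ← coeff_succ_X_mul, ← coeff_succ_X_mul j (tay g * _),
      show X * (σ * h * h) = σ * F by rw [← hF]; ring,
      show X * (tay g * d⁄dX ℂ F) = tay g * th F by rw [th]; ring, coeff_mul_zero F0,
      coeff_mul_zero (by simp [coeff_th])]
    refine sum_congr rfl fun l hl => ?_
    rw [hσ, tay_fin _ _ (mem_range.mp hl), coeff_th, Nat.cast_sub (mem_range.mp hl).le]
    ring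
  have h3 := sum_range_reflect (fun q => ‖coeff q h‖ ^ 2) (j + 1)
  simp only [Nat.add_sub_cancel] at h3
  rw [h2, h3] at h1
  have h4 := hh (j + 1)
  push_cast at h1 h4
  have : (0 : ℝ) ≤ j + 1 := by positivity
  nlinarith

theorem upper_core {n m : ℕ} {P : Polynomial ℂ} (hn : P.natDegree ≤ n) (h0 : P.coeff 0 = 0)
    (h1 : P.coeff 1 = 1) {ρ : ℝ} (hρ : 1 < ρ) (hi : InjOn (fun z => P.eval z) (ball 0 ρ))
    (hm : m < n) : (m + 1) * ‖P.coeff (m + 1)‖ ≤ ((n : ℝ) - m) ^ 2 := by
  have hd : ∀ z ∈ closedBall (0 : ℂ) 1, P.derivative.eval z ≠ 0 := fun z hz => by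
    rw [← Polynomial.deriv]
    exact deriv_ne_zero_of_injOn (P.differentiable.analyticAt z)
      (isOpen_ball.mem_nhds (closedBall_subset_ball hρ hz)) hi
  obtain ⟨R, hR⟩ := (isCompact_closedBall (0 : ℂ) 1).exists_bound_of_continuousOn
    P.continuous.continuousOn
  obtain ⟨h, a1, a2⟩ := robertson (f := fun z => P.eval z) P.differentiable.differentiableOn
    (hi.mono (ball_subset_ball hρ.le)) (by rw [← Polynomial.coeff_zero_eq_eval_zero, h0])
    (by rw [Polynomial.deriv, ← Polynomial.coeff_zero_eq_eval_zero, Polynomial.coeff_derivative,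
      h1]; simp) (R := R + 1) fun z hz => (hR z (ball_subset_closedBall hz)).trans_lt (lt_add_one R)
  rw [tay_poly] at a1
  set Q : ℂ → ℂ := fun z => ∑ l ∈ range n, conj (P.derivative.coeff (n - 1 - l)) * z ^ l with hQ
  have Qd : Differentiable ℂ Q := by rw [hQ]; fun_prop
  have hg : DifferentiableOn ℂ (fun z => Q z / P.derivative.eval z) (closedBall 0 1) :=
    Qd.differentiableOn.div P.derivative.differentiable.differentiableOn hd
  have a3 := pairing a1 a2 hg (fun z hz => by
    have hz' := mem_sphere_zero_iff_norm.mp hz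
    have b1 : conj z * z = 1 := by rw [conj_mul', hz']; simp
    have b2 : Q z = conj (P.derivative.eval z) * z ^ (n - 1) := by
      rw [Polynomial.eval_eq_sum_range' (n := n) (by
        have := Polynomial.natDegree_derivative_le P; omega), map_sum, sum_mul,
        ← sum_range_reflect]
      refine sum_congr rfl fun l hl => ?_
      obtain ⟨k, hk⟩ := Nat.exists_eq_add_of_le (show l ≤ n - 1 by have := mem_range.mp hl; omega)
      have : conj z ^ k * z ^ k = 1 := by rw [← mul_pow, b1, one_pow]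
      rw [hk, Nat.add_sub_cancel_left, map_mul, map_pow, pow_add]
      linear_combination -conj (P.derivative.coeff k) * z ^ l * this
    rw [b2, norm_div, norm_mul, norm_conj, norm_pow, hz', one_pow, mul_one]
    exact div_self_le_one _) (n - 1 - m)
  rw [derivative_coe, ← tay_poly P.derivative,
    ← tay_mul (hg.analyticAt (closedBall_mem_nhds _ one_pos))
      (P.derivative.differentiable.analyticAt 0), tay_congr (g := Q) (by
      filter_upwards [closedBall_mem_nhds (0 : ℂ) one_pos] with z hz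
      exact div_mul_cancel₀ _ (hd z hz)), hQ, tay_fin _ _ (by omega), norm_conj,
    show n - 1 - (n - 1 - m) = m by omega, Polynomial.coeff_derivative, norm_mul, ← Nat.cast_succ,
    Complex.norm_natCast, ← Nat.cast_succ, show (n - 1 - m).succ = n - m by omega,
    Nat.cast_sub hm.le] at a3
  push_cast at a3
  linarith

theorem upper {n m : ℕ} {P : Polynomial ℂ} (hn : P.natDegree ≤ n) (h0 : P.coeff 0 = 0)
    (h1 : P.coeff 1 = 1) (hi : InjOn (fun z => P.eval z) (ball 0 1)) (hm : m < n) :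
    (m + 1) * ‖P.coeff (m + 1)‖ ≤ ((n : ℝ) - m) ^ 2 := by
  have ht : Tendsto (fun r : ℝ => (m + 1) * (‖P.coeff (m + 1)‖ * r ^ m)) (𝓝[<] 1)
      (𝓝 ((m + 1) * (‖P.coeff (m + 1)‖ * 1 ^ m))) :=
    (Continuous.tendsto (by fun_prop) 1).mono_left nhdsWithin_le_nhds
  rw [one_pow, mul_one] at ht
  refine le_of_tendsto ht ?_
  filter_upwards [Ioo_mem_nhdsLT zero_lt_one] with r ⟨r0, r1⟩
  have rc : (r : ℂ) ≠ 0 := by exact_mod_cast r0.ne'
  have hc : ∀ k, (Polynomial.C (r : ℂ)⁻¹ * P.comp (Polynomial.C (r : ℂ) * Polynomial.X)).coeff k =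
      (r : ℂ)⁻¹ * (P.coeff k * r ^ k) := fun k => by
    rw [Polynomial.coeff_C_mul, Polynomial.comp_C_mul_X_coeff]
  have := upper_core (P := Polynomial.C (r : ℂ)⁻¹ * P.comp (Polynomial.C (r : ℂ) * Polynomial.X))
    (n := n) (m := m) (Polynomial.natDegree_le_iff_coeff_eq_zero.mpr fun k hk => by
      rw [hc, Polynomial.coeff_eq_zero_of_natDegree_lt (hn.trans_lt hk)]; simp)
    (by rw [hc, h0]; simp) (by rw [hc, h1]; field_simp) (one_lt_inv₀ r0 |>.mpr r1)
    (fun z hz w hw h => by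
      have key : ∀ z ∈ ball (0 : ℂ) r⁻¹, r * z ∈ ball (0 : ℂ) 1 := fun z hz => by
        rw [mem_ball_zero_iff] at *
        rwa [norm_mul, norm_real, Real.norm_eq_abs, abs_of_pos r0, ← lt_inv_mul_iff₀ r0, mul_one]
      simp only [Polynomial.eval_mul, Polynomial.eval_C, Polynomial.eval_comp,
        Polynomial.eval_X] at h
      exact mul_left_cancel₀ rc (hi (key z hz) (key w hw) (mul_left_cancel₀ (inv_ne_zero rc) h)))
    hm
  rwa [hc, show (r : ℂ)⁻¹ * (P.coeff (m + 1) * r ^ (m + 1)) = P.coeff (m + 1) * r ^ m by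
    field_simp; ring, norm_mul, norm_pow, norm_real, Real.norm_eq_abs, abs_of_pos r0] at this

end Pool.Agent.P.MP_c09211_an
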