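import Pool.Agent.P.MP_c09211_an.Defs
import Pool.Agent.P.MP_c09211_an.Upper
import Pool.Agent.P.MP_c09211_an.Lower

/-!
Bounds for the coefficient maxima.
-/

set_option autoImplicit false

namespace Pool.Agent.P.MP_c09211_an

theorem Univ.le {n m : ℕ} {P : Polynomial ℂ} (h : Univ n P) (h1 : 1 ≤ m) (h2 : m ≤ n) :
    ‖P.coeff m‖ ≤ ((n : ℝ) + 1 - m) ^ 2 / m := by
  obtain ⟨m, rfl⟩ : ∃ k, m = k + 1 := ⟨m - 1, by omega⟩
  have := upper h.1 h.2.1 h.2.2.1 h.2.2.2 (m := m) h2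
  push_cast
  rw [le_div_iff₀' (by positivity), add_sub_add_right_eq_sub]
  exact this

theorem A_le {n m : ℕ} (h1 : 1 ≤ m) (h2 : m ≤ n) : A m n ≤ ((n : ℝ) + 1 - m) ^ 2 / m :=
  Real.sSup_le (fun _ ⟨_, hP, hx⟩ => hx ▸ hP.le h1 h2) (by positivity)

theorem le_A {n m : ℕ} (h1 : 1 ≤ m) (h2 : m ≤ n) {P : Polynomial ℂ} (h : Univ n P) :
    ‖P.coeff m‖ ≤ A m n :=
  le_csSup ⟨_, fun _ ⟨_, hP, hx⟩ => hx ▸ hP.le h1 h2⟩ ⟨P, h, rfl⟩

theorem suff_univ {n : ℕ} (hn : 1 ≤ n) : Univ n (suff (n + 1)) := by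
  obtain ⟨M, rfl⟩ : ∃ M, n = M + 1 := ⟨n - 1, by omega⟩
  refine ⟨Polynomial.natDegree_le_iff_coeff_eq_zero.mpr fun k hk => ?_, ?_, ?_, suff_inj M⟩
  · rw [suff_coeff]
    split_ifs with h
    · rw [show k = M + 1 + 1 by omega, sub_self]; simp
    · rfl
  · rw [suff_coeff, if_pos (by omega)]; simp
  · have : (((M + 1 + 1 : ℕ) : ℝ) - 1) ≠ 0 := by
      push_cast; linarith [M.cast_nonneg (α := ℝ)]
    rw [suff_coeff, if_pos (by omega), Nat.cast_one, one_mul,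
      div_self (mul_ne_zero this (sin_pos' M).ne'), Complex.ofReal_one]

theorem n1_le {n k : ℕ} (h1 : 2 ≤ k) (h2 : k ≤ n) (h3 : (n + 1 - k) ^ 2 ≤ k) : n1 n ≤ k := by
  refine Nat.sInf_le ⟨h1, h2, fun m a b => (A_le (by omega) b).trans ?_⟩
  rw [div_le_one (by norm_cast; omega)]
  have : (n + 1 - m) ^ 2 ≤ m := ((Nat.pow_le_pow_left (by omega) 2).trans h3).trans a
  have h : ((n + 1 - m : ℕ) : ℝ) = n + 1 - m := by rw [Nat.cast_sub (by omega)]; push_cast; ring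
  rw [← h]
  exact_mod_cast this

theorem le_n1 {n s : ℕ} (hn : 2 ≤ n) (h1 : s ^ 2 ≤ n + 1) (h2 : n + 1 < (s + 1) ^ 2) :
    n + 1 - s ≤ n1 n := by
  have hne : {k : ℕ | 2 ≤ k ∧ k ≤ n ∧ ∀ m : ℕ, k ≤ m → m ≤ n → A m n ≤ 1}.Nonempty :=
    ⟨n, hn, le_rfl, fun m a b => (A_le (by omega) b).trans (by
      rw [le_antisymm b a, add_sub_cancel_left, one_pow, div_le_one (by norm_cast; omega)]
      norm_cast
      omega)⟩
  obtain ⟨a, b, c⟩ := Nat.sInf_mem hne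
  by_contra h
  change 2 ≤ n1 n at a
  have h3 : n1 n ≤ n - s := by omega
  have := c (n - s) h3 (Nat.sub_le _ _)
  exact absurd ((suff_big h1 h2 (by omega)).trans_le
    ((le_A (by omega) (Nat.sub_le _ _) (suff_univ (by omega))).trans this)) (lt_irrefl _)

end Pool.Agent.P.MP_c09211_an
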