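import Pool.Agent.P.MP_c09211_an.Pick

/-!
The polynomials of Suffridge are univalent in the unit disc.
-/

set_option autoImplicit false

namespace Pool.Agent.P.MP_c09211_an

open Polynomial Complex Finset
open scoped ComplexConjugate Real

/-- The polynomial with coefficients `sin (k π / N)`. -/
noncomputable def Qs (N : ℕ) : ℂ[X] := ∑ k ∈ range (N + 1), monomial k (Real.sin (k * (π / N)) : ℂ)

theorem Qs_coeff (N k : ℕ) :
    (Qs N).coeff k = if k ≤ N then (Real.sin (k * (π / N)) : ℂ) else 0 := by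
  simp only [Qs, finsetSum_coeff, coeff_monomial, sum_ite_eq', mem_range, Nat.lt_succ_iff]

theorem sin_sum (α : ℝ) (z : ℂ) (M : ℕ) :
    (1 - 2 * z * Real.cos α + z ^ 2) * ∑ k ∈ range (M + 1), (Real.sin (k * α) : ℂ) * z ^ k =
      z * Real.sin α - Real.sin ((M + 1) * α) * z ^ (M + 1) + Real.sin (M * α) * z ^ (M + 2) := by
  induction M with
  | zero => simp [mul_comm]
  | succ M ih =>
    have : Real.sin ((M + 1 + 1) * α) = 2 * Real.cos α * Real.sin ((M + 1) * α) -
        Real.sin (M * α) := by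
      rw [show (M + 1 + 1) * α = (M + 1) * α + α by ring, show M * α = (M + 1) * α - α by ring,
        Real.sin_add, Real.sin_sub]
      ring
    rw [sum_range_succ, mul_add, ih, Nat.cast_succ, this]
    simp only [ofReal_sub, ofReal_mul, ofReal_ofNat]
    ring

theorem Qs_eval {N : ℕ} (hN : N ≠ 0) (z : ℂ) :
    (1 - 2 * z * Real.cos (π / N) + z ^ 2) * (Qs N).eval z = Real.sin (π / N) * z * (1 + z ^ N) := by
  have h : (N : ℝ) * (π / N) = π := mul_div_cancel₀ _ (by exact_mod_cast hN)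
  simp only [Qs, eval_finsetSum, eval_monomial]
  rw [sin_sum, add_mul, h, one_mul, Real.sin_pi, add_comm π, Real.sin_add_pi]
  simp only [ofReal_neg, ofReal_zero]
  ring

/-- The self-inversive polynomial attached to a value. -/
noncomputable def Ss (N : ℕ) (u : ℂ) : ℂ[X] := C u + C (conj u) * X ^ N - Qs N

theorem Ss_deg (N : ℕ) (u : ℂ) : (Ss N u).natDegree ≤ N := by
  refine natDegree_le_iff_coeff_eq_zero.mpr fun k hk => ?_
  rw [Ss, coeff_sub, coeff_add, coeff_C_mul_X_pow, Qs_coeff, coeff_C, if_neg (by omega),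
    if_neg hk.ne', if_neg hk.not_ge]
  simp

theorem Ss_reflect {N : ℕ} (hN : N ≠ 0) (u : ℂ) :
    reflect N ((Ss N u).map (starRingEnd ℂ)) = Ss N u := by
  have h : (N : ℝ) * (π / N) = π := mul_div_cancel₀ _ (by exact_mod_cast hN)
  have : reflect N ((Qs N).map (starRingEnd ℂ)) = Qs N := by
    ext k
    rw [coeff_reflect, coeff_map, Qs_coeff, Qs_coeff]
    by_cases hk : k ≤ N
    · rw [revAt_le hk, if_pos hk, if_pos (Nat.sub_le _ _), conj_ofReal, Nat.cast_sub hk, sub_mul, h,
        Real.sin_pi_sub]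
    · rw [revAt_eq_self_of_lt (not_le.mp hk), if_neg hk, map_zero]
  simp only [Ss, Polynomial.map_sub, Polynomial.map_add, Polynomial.map_mul, Polynomial.map_pow,
    map_C, map_X, reflect_sub, reflect_add, this, reflect_C, reflect_C_mul_X_pow, revAt_le le_rfl,
    conj_conj, Nat.sub_self, pow_zero, mul_one, add_comm]

theorem conj_eval {N : ℕ} {S : ℂ[X]} (hd : S.natDegree ≤ N)
    (h : reflect N (S.map (starRingEnd ℂ)) = S) {z : ℂ} (hz : ‖z‖ = 1) :
    conj (S.eval z) * z ^ N = S.eval z := by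
  have b1 : conj z * z = 1 := by rw [conj_mul', hz]; simp
  rw [eval_eq_sum_range' (Nat.lt_succ_of_le hd), map_sum, sum_mul, ← sum_range_reflect]
  refine sum_congr rfl fun l hl => ?_
  obtain ⟨k, hk⟩ := Nat.exists_eq_add_of_le (Nat.lt_succ_iff.mp (mem_range.mp hl))
  have h1 := congrArg (coeff · l) h
  simp only [coeff_reflect, coeff_map, revAt_le (hk ▸ Nat.le_add_right l k : l ≤ N)] at h1
  have : conj z ^ k * z ^ k = 1 := by rw [← mul_pow, b1, one_pow]
  rw [← h1, hk, Nat.succ_sub_one, Nat.add_sub_cancel_left, map_mul, map_pow, pow_add]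
  linear_combination conj (S.coeff k) * z ^ l * this

/-- The real function on the circle. -/
noncomputable def Gs (N : ℕ) (u : ℂ) (θ : ℝ) : ℂ :=
  conj (circleMap 0 1 (N * θ / 2)) * (Ss N u).eval (circleMap 0 1 θ)

theorem circ_sq (N : ℕ) (θ : ℝ) : circleMap 0 1 θ ^ N = circleMap 0 1 (N * θ / 2) ^ 2 := by
  simp only [circleMap_zero_pow, one_pow]
  congr 1
  push_cast
  ring

theorem Gs_zero {N : ℕ} (hN : N ≠ 0) {u : ℂ} {θ : ℝ} (h : (Gs N u θ).re = 0) :
    (Ss N u).eval (circleMap 0 1 θ) = 0 := by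
  have a1 := conj_eval (Ss_deg N u) (Ss_reflect hN u) (z := circleMap 0 1 θ) (by simp)
  have a2 : conj (circleMap 0 1 (N * θ / 2)) * circleMap 0 1 (N * θ / 2) = 1 := by
    rw [conj_mul']; simp
  have a3 := add_conj (Gs N u θ)
  rw [h, Gs, map_mul, conj_conj] at a3
  rw [circ_sq] at a1
  push_cast at a3
  linear_combination circleMap 0 1 (N * θ / 2) / 2 * a3 - 1 / 2 * a1 -
    (Ss N u).eval (circleMap 0 1 θ) / 2 * a2

theorem Gs_val {N : ℕ} (hN : N ≠ 0) (u : ℂ) {θ : ℝ} (h1 : Real.cos θ ≠ Real.cos (π / N))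
    (h2 : Real.cos (N * θ / 2) = 0) : (Gs N u θ).re = 2 * u.im * Real.sin (N * θ / 2) := by
  have a1 : circleMap 0 1 (N * θ / 2) = Real.sin (N * θ / 2) * I := by
    apply Complex.ext <;> simp [-ofReal_sin, circleMap_zero_re, circleMap_zero_im, h2]
  have a2 : circleMap 0 1 θ ^ N = -1 := by
    have := Real.sin_sq_add_cos_sq (N * θ / 2)
    rw [h2, sq (0 : ℝ), mul_zero, add_zero] at this
    rw [circ_sq, a1, mul_pow, I_sq, ← ofReal_pow, this]
    simp
  have a3 : (Qs N).eval (circleMap 0 1 θ) = 0 := by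
    have b1 := Qs_eval hN (circleMap 0 1 θ)
    rw [a2, add_neg_cancel, mul_zero, mul_eq_zero] at b1
    refine b1.resolve_left fun b2 => h1 ?_
    have b3 : conj (circleMap 0 1 θ) * circleMap 0 1 θ = 1 := by rw [conj_mul']; simp
    have b4 := add_conj (circleMap 0 1 θ)
    rw [circleMap_zero_re, one_mul, ofReal_mul, ofReal_ofNat] at b4
    have : (Real.cos θ : ℂ) = Real.cos (π / N) := by
      linear_combination -1 / 2 * b4 + conj (circleMap 0 1 θ) / 2 * b2 +
        (Real.cos (π / N) - circleMap 0 1 θ / 2) * b3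
    exact_mod_cast this
  simp only [Gs, Ss, eval_sub, eval_add, eval_mul, eval_C, eval_pow, eval_X, a1, a2, a3]
  simp [-ofReal_sin]
  ring

theorem exists_roots (M : ℕ) (u : ℂ) :
    ∃ s : Finset ℂ, s.card = M ∧ ∀ ζ ∈ s, ‖ζ‖ = 1 ∧ (Ss (M + 2) u).eval ζ = 0 := by
  classical
  rcases Nat.eq_zero_or_pos M with rfl | hM
  · exact ⟨∅, rfl, by simp⟩
  set α := π / (M + 2 : ℕ) with hα
  have α0 : 0 < α := by positivity
  have hπ : π = (M + 2) * α := by rw [hα]; push_cast; field_simp
  have hc : ∀ j : ℕ, 1 ≤ j → j ≤ M → Real.cos ((2 * j + 1) * α) ≠ Real.cos α := fun j h1 h2 => by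
    have h1' : (1 : ℝ) ≤ j := by exact_mod_cast h1
    have h2' : (j : ℝ) ≤ M := by exact_mod_cast h2
    rw [← sub_ne_zero, Real.cos_sub_cos]
    exact mul_ne_zero (mul_ne_zero (by norm_num)
      (Real.sin_pos_of_pos_of_lt_pi (by nlinarith) (by nlinarith)).ne')
      (Real.sin_pos_of_pos_of_lt_pi (by nlinarith) (by nlinarith)).ne'
  have he : ∀ j : ℕ, ((M + 2 : ℕ) : ℝ) * ((2 * j + 1) * α) / 2 = j * π + π / 2 := fun j => by
    rw [hπ]; push_cast; ring
  let t : ℕ → ℝ := fun j => if j = 0 then -((2 * (1 : ℕ) + 1) * α) else (2 * j + 1) * α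
  have ht : StrictMono t := strictMono_nat_of_lt_succ fun j => by
    simp only [t, if_neg j.succ_ne_zero]
    split_ifs with h
    · rw [h]; push_cast; linarith
    · push_cast; linarith
  have hv : ∀ j ≤ M, (Gs (M + 2) u (t j)).re = 2 * u.im * (-1) ^ j := fun j hj => by
    simp only [t]
    split_ifs with h
    · rw [Gs_val (by omega) u (by rw [Real.cos_neg]; exact hc 1 le_rfl hM) (by
        rw [mul_neg, neg_div, Real.cos_neg, he, Real.cos_add_pi_div_two, Real.sin_nat_mul_pi,
          neg_zero]), mul_neg, neg_div, Real.sin_neg, he, Real.sin_add_pi_div_two,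
        Real.cos_nat_mul_pi, h]
      simp
    · rw [Gs_val (by omega) u (hc j (by omega) hj) (by
        rw [he, Real.cos_add_pi_div_two, Real.sin_nat_mul_pi, neg_zero]), he,
        Real.sin_add_pi_div_two, Real.cos_nat_mul_pi]
  have hcont : Continuous fun θ => (Gs (M + 2) u θ).re := by
    have := continuous_circleMap 0 1
    exact continuous_re.comp ((continuous_conj.comp (this.comp (by fun_prop))).mul
      ((Ss (M + 2) u).continuous.comp this))
  have hz : ∀ j : ℕ, ∃ θ, j < M → θ ∈ Set.Ioc (t j) (t (j + 1)) ∧ (Gs (M + 2) u θ).re = 0 := by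
    intro j
    by_cases hj : j < M
    · simp only [hj, forall_const]
      have a1 : (Gs (M + 2) u (t (j + 1))).re = -(Gs (M + 2) u (t j)).re := by
        rw [hv (j + 1) hj, hv _ hj.le]; ring
      have a2 := ht (lt_add_one j)
      rcases lt_trichotomy (Gs (M + 2) u (t j)).re 0 with h | h | h
      · exact intermediate_value_Ioc a2.le hcont.continuousOn ⟨h, by linarith⟩
      · exact ⟨t (j + 1), ⟨a2, le_rfl⟩, by linarith⟩
      · exact intermediate_value_Ioc' a2.le hcont.continuousOn ⟨by linarith, h⟩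
    · exact ⟨0, fun h => absurd h hj⟩
  choose θ hθ using hz
  have hlt : ∀ i j, i < j → j < M → circleMap 0 1 (θ i) ≠ circleMap 0 1 (θ j) := by
    intro i j hij hj h
    have a1 := (hθ i (hij.trans hj)).1
    have a2 := (hθ j hj).1
    have a3 := ht.monotone (Nat.succ_le_of_lt hij)
    have a4 := ht.monotone (Nat.zero_le i)
    have a5 := ht.monotone (Nat.succ_le_of_lt hj)
    have a6 : t M - t 0 = 2 * π := by simp only [t, if_neg hM.ne', if_true, hπ]; push_cast; ring
    have := eq_of_circleMap_eq one_ne_zero (abs_lt.mpr ⟨by linarith [a1.1, a2.2], by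
      linarith [a1.2, a2.1, Real.pi_pos]⟩) h
    linarith [a1.2, a2.1]
  refine ⟨(range M).image fun j => circleMap 0 1 (θ j), ?_, fun ζ hζ => ?_⟩
  · rw [card_image_of_injOn, card_range]
    intro i hi j hj h
    by_contra hij
    rcases lt_or_gt_of_ne hij with h' | h'
    · exact hlt i j h' (mem_range.mp hj) h
    · exact hlt j i h' (mem_range.mp hi) h.symm
  · obtain ⟨j, hj, rfl⟩ := mem_image.mp hζ
    exact ⟨by simp, Gs_zero (by omega) (hθ j (mem_range.mp hj)).2⟩

/-- The polynomial of Suffridge of degree `N - 1`. -/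
noncomputable def suff (N : ℕ) : ℂ[X] :=
  C ((((N - 1) * Real.sin (π / N))⁻¹ : ℝ) : ℂ) * (C (N : ℂ) * Qs N - X * derivative (Qs N))

theorem suff_coeff (N k : ℕ) : (suff N).coeff k = if k ≤ N then
    ((((N - k) * Real.sin (k * (π / N)) / ((N - 1) * Real.sin (π / N)) : ℝ) : ℂ)) else 0 := by
  have : (X * derivative (Qs N)).coeff k = k * (Qs N).coeff k := by
    cases k with
    | zero => simp
    | succ k => rw [coeff_X_mul, coeff_derivative]; push_cast; ring
  rw [suff, coeff_C_mul, coeff_sub, coeff_C_mul, this, Qs_coeff]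
  split_ifs
  · simp only [ofReal_div, ofReal_inv, ofReal_mul, ofReal_sub, ofReal_natCast]
    ring
  · simp

theorem sin_pos' (M : ℕ) : 0 < Real.sin (π / (M + 2 : ℕ)) :=
  Real.sin_pos_of_pos_of_lt_pi (by positivity) (div_lt_self Real.pi_pos (by norm_cast; omega))

theorem suff_inj (M : ℕ) : Set.InjOn (fun z => (suff (M + 2)).eval z) (Metric.ball 0 1) := by
  intro z hz w hw h
  by_contra hzw
  rw [mem_ball_zero_iff] at hz hw
  have h0 := sin_pos' M
  have hN : ((M + 2 : ℕ) : ℂ) ≠ 0 := by norm_cast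
  simp only [suff, eval_mul, eval_C, eval_sub, eval_X] at h
  replace h := mul_left_cancel₀ (ofReal_ne_zero.mpr (inv_ne_zero (mul_ne_zero (by
    push_cast; linarith [M.cast_nonneg (α := ℝ)]) h0.ne'))) h
  set u := (((M + 2 : ℕ) : ℂ) * (Qs (M + 2)).eval z - z * (Qs (M + 2)).derivative.eval z) /
    (M + 2 : ℕ) with hu
  obtain ⟨s, hs, hs'⟩ := exists_roots M u
  have key : ∀ y : ℂ, ((M + 2 : ℕ) : ℂ) * (Qs (M + 2)).eval y - y * (Qs (M + 2)).derivative.eval y =
      u * (M + 2 : ℕ) → ((((M + 2 : ℕ) : ℝ) : ℂ) + (s.card + 2)) * (Ss (M + 2) u).eval y -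
      2 * y * (Ss (M + 2) u).derivative.eval y = 0 := fun y hy => by
    rw [hs]
    simp [Ss] at hy ⊢
    linear_combination -2 * hy
  have := pick hz hw hzw s (Ss (M + 2) u) 1 _ _ hs' (hs ▸ Ss_deg _ _) norm_one
    (by rw [hs, Ss_reflect (by omega), map_one, one_mul])
    (Pos.const hz hw hzw (c := (M + 2 : ℕ)) (by positivity))
    (key z (by rw [hu, div_mul_cancel₀ _ hN])) (key w (by rw [hu, div_mul_cancel₀ _ hN, h]))
  have a := congrArg (coeff · 1) this
  simp only [Ss, coeff_sub, coeff_add, coeff_C_mul_X_pow, Qs_coeff, coeff_C] at a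
  rw [if_neg (by omega), if_neg (by omega), if_pos (by omega), Nat.cast_one, one_mul] at a
  exact h0.ne' (by simpa [-ofReal_sin] using a)

end Pool.Agent.P.MP_c09211_an
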