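import Mathlib

/-!
The square root trick of Koebe: a univalent self-map of the disc which omits a point of modulus
`r` factors through a Blaschke product of degree two.
-/

set_option autoImplicit false

namespace Pool.Agent.P.MP_c09211_an

open Metric Set Filter Topology

/-- A univalent self-map of the unit disc fixing the origin. -/
structure Self (v : ℂ → ℂ) : Prop where
  diff : DifferentiableOn ℂ v (ball 0 1)
  inj : InjOn v (ball 0 1)
  maps : MapsTo v (ball 0 1) (ball 0 1)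
  zero : v 0 = 0

theorem max_ball {f : ℂ → ℂ} (hf : DifferentiableOn ℂ f (ball 0 1)) {ρ c : ℝ} (h0 : 0 < ρ)
    (h1 : ρ < 1) (h : ∀ z ∈ sphere (0 : ℂ) ρ, ‖f z‖ ≤ c) {z : ℂ} (hz : ‖z‖ ≤ ρ) : ‖f z‖ ≤ c := by
  refine Complex.norm_le_of_forall_mem_frontier_norm_le (U := ball 0 ρ) isBounded_ball
    (hf.mono ?_).diffContOnCl ?_ ?_
  · rw [closure_ball _ h0.ne']; exact closedBall_subset_ball h1
  · rwa [frontier_ball _ h0.ne']
  · rw [closure_ball _ h0.ne']; simpa using hz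

theorem cover {v : ℂ → ℂ} (hv : Self v) (hd : deriv v 0 ≠ 0) {r : ℝ} (h0 : 0 < r)
    (h : sphere (0 : ℂ) r ⊆ v '' ball 0 1) : r ≤ ‖deriv v 0‖ := by
  have hopen : ∀ s ⊆ ball (0 : ℂ) 1, IsOpen s → IsOpen (v '' s) := by
    refine ((hv.diff.analyticOnNhd isOpen_ball).is_constant_or_isOpen
      (convex_ball _ _).isPreconnected).resolve_left ?_
    rintro ⟨w, hw⟩
    have h1 : (1 / 2 : ℂ) ∈ ball (0 : ℂ) 1 := by simp; norm_num
    have := hv.inj (mem_ball_self one_pos) h1 ((hw _ (mem_ball_self one_pos)).trans (hw _ h1).symm)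
    norm_num at this
  have : Nonempty (Ioo (0 : ℝ) 1) := ⟨⟨1 / 2, by norm_num, by norm_num⟩⟩
  obtain ⟨⟨ρ, hρ0, hρ1⟩, hρ⟩ := (isCompact_sphere (0 : ℂ) r).elim_directed_cover
    (fun ρ : Ioo (0 : ℝ) 1 => v '' ball 0 ρ.1)
    (fun ρ => hopen _ (ball_subset_ball ρ.2.2.le) isOpen_ball)
    (fun w hw => by
      obtain ⟨z, hz, rfl⟩ := h hw
      rw [mem_ball_zero_iff] at hz
      exact mem_iUnion.mpr ⟨⟨(‖z‖ + 1) / 2, by positivity, by linarith⟩, z,
        mem_ball_zero_iff.mpr (by linarith), rfl⟩)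
    (Monotone.directed_le fun a b hab => image_mono (ball_subset_ball hab))
  have hsub : sphere (0 : ℂ) ρ ⊆ ball 0 1 := sphere_subset_closedBall.trans
    (closedBall_subset_ball hρ1)
  have hne : ∀ z ∈ sphere (0 : ℂ) ρ, ‖v z‖ ≠ r := by
    intro z hz he
    obtain ⟨w, hw, hw'⟩ := hρ (mem_sphere_zero_iff_norm.mpr he)
    have := hv.inj (ball_subset_ball hρ1.le hw) (hsub hz) hw'
    rw [this, mem_ball_zero_iff, mem_sphere_zero_iff_norm.mp hz] at hw
    exact lt_irrefl _ hw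
  have hcont : ContinuousOn (fun z => ‖v z‖) (sphere (0 : ℂ) ρ) :=
    (hv.diff.continuousOn.mono hsub).norm
  have hbig : ∀ z ∈ sphere (0 : ℂ) ρ, r ≤ ‖v z‖ := by
    intro z hz
    by_contra hlt
    obtain ⟨z1, hz1, hmax⟩ := (isCompact_sphere (0 : ℂ) ρ).exists_isMaxOn ⟨z, hz⟩ hcont
    have h1 : r ≤ ‖v z1‖ := by
      obtain ⟨w, hw, hw'⟩ := hρ (show (r : ℂ) ∈ sphere (0 : ℂ) r by simp [abs_of_pos h0])
      have := max_ball hv.diff hρ0 hρ1 (fun z hz => hmax hz) (mem_ball_zero_iff.mp hw).le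
      rwa [hw', Complex.norm_real, Real.norm_eq_abs, abs_of_pos h0] at this
    obtain ⟨z2, hz2, he⟩ := (isPreconnected_sphere (by rw [Complex.rank_real_complex]; norm_num)
      (0 : ℂ) ρ).intermediate_value hz hz1 hcont ⟨(not_le.mp hlt).le, h1⟩
    exact hne z2 hz2 he
  have hg : DifferentiableOn ℂ (dslope v 0) (ball 0 1) :=
    (Complex.differentiableOn_dslope (ball_mem_nhds _ one_pos)).mpr hv.diff
  have hg' : ∀ z, z ≠ 0 → dslope v 0 z = z⁻¹ * v z := fun z hz => by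
    rw [dslope_of_ne _ hz, slope_def_field, hv.zero, sub_zero, sub_zero, div_eq_inv_mul]
  have hg0 : ∀ z ∈ ball (0 : ℂ) 1, dslope v 0 z ≠ 0 := by
    intro z hz
    by_cases h1 : z = 0
    · rwa [h1, dslope_same]
    · rw [hg' z h1]
      exact mul_ne_zero (inv_ne_zero h1) fun h2 =>
        h1 (hv.inj hz (mem_ball_self one_pos) (h2.trans hv.zero.symm))
  have := max_ball (hg.inv hg0) hρ0 hρ1 (c := r⁻¹) (fun z hz => by
    have h1 := mem_sphere_zero_iff_norm.mp hz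
    have h2 : z ≠ 0 := norm_pos_iff.mp (h1 ▸ hρ0)
    rw [Pi.inv_apply, hg' z h2, norm_inv, norm_mul, norm_inv, h1]
    refine inv_anti₀ h0 ((hbig z hz).trans (le_mul_of_one_le_left (norm_nonneg _) ?_))
    exact one_le_inv_iff₀.mpr ⟨hρ0, hρ1.le⟩) (z := 0) (by simpa using hρ0.le)
  rw [Pi.inv_apply, dslope_same, norm_inv] at this
  exact (inv_le_inv₀ (norm_pos_iff.mpr hd) h0).mp this

theorem one_sub_ne {p : ℂ} (hp : ‖p‖ < 1) : 1 - p ≠ 0 := fun h => by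
  rw [sub_eq_zero] at h
  rw [← h, norm_one] at hp
  exact lt_irrefl _ hp

theorem norm_mul_lt {p q : ℂ} (hp : ‖p‖ ≤ 1) (hq : ‖q‖ < 1) : ‖p * q‖ < 1 := by
  rw [norm_mul]
  exact mul_lt_one_of_nonneg_of_lt_one_right hp (norm_nonneg _) hq

theorem moebius {p q : ℂ} (hp : ‖p‖ < 1) (hq : ‖q‖ < 1) :
    ‖(p - q) / (1 - (starRingEnd ℂ) q * p)‖ < 1 := by
  have h := one_sub_ne (norm_mul_lt (p := (starRingEnd ℂ) q) (by simpa using hq.le) hp)
  rw [norm_div, div_lt_one (norm_pos_iff.mpr h), ← sq_lt_sq₀ (norm_nonneg _) (norm_nonneg _)]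
  have h1 : ‖p‖ ^ 2 < 1 := by nlinarith [norm_nonneg p]
  have h2 : ‖q‖ ^ 2 < 1 := by nlinarith [norm_nonneg q]
  simp only [Complex.sq_norm, Complex.normSq_apply, Complex.sub_re, Complex.sub_im, Complex.mul_re,
    Complex.mul_im, Complex.one_re, Complex.one_im, Complex.conj_re, Complex.conj_im] at *
  nlinarith [mul_pos (sub_pos.mpr h1) (sub_pos.mpr h2)]

/-- A Blaschke product of degree two. -/
noncomputable def Bl (β : ℝ) (κ z : ℂ) : ℂ := z * (β - κ * z) / (1 - β * κ * z)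

theorem Bl_den {β : ℝ} {κ z : ℂ} (h0 : 0 ≤ β) (h1 : β < 1) (hκ : ‖κ‖ = 1) (hz : ‖z‖ < 1) :
    1 - β * κ * z ≠ 0 :=
  one_sub_ne (norm_mul_lt (by rw [norm_mul, hκ, mul_one]; simpa [abs_of_nonneg h0] using h1.le) hz)

theorem Bl_maps {β : ℝ} {κ : ℂ} (h0 : 0 ≤ β) (h1 : β < 1) (hκ : ‖κ‖ = 1) :
    MapsTo (Bl β κ) (ball 0 1) (ball 0 1) := by
  intro z hz
  rw [mem_ball_zero_iff] at hz ⊢
  have := moebius (p := κ * z) (q := β) (norm_mul_lt hκ.le hz) (by simpa [abs_of_nonneg h0])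
  rw [Complex.conj_ofReal, ← norm_neg, ← neg_div, neg_sub, ← mul_assoc] at this
  rw [Bl, mul_div_assoc]
  exact norm_mul_lt hz.le this

theorem Bl_diff {β : ℝ} {κ : ℂ} (h0 : 0 ≤ β) (h1 : β < 1) (hκ : ‖κ‖ = 1) :
    DifferentiableOn ℂ (Bl β κ) (ball 0 1) :=
  DifferentiableOn.div (by fun_prop) (by fun_prop) fun _ hz =>
    Bl_den h0 h1 hκ (mem_ball_zero_iff.mp hz)

theorem Bl_zero (β : ℝ) (κ : ℂ) : Bl β κ 0 = 0 := by simp [Bl]

theorem Bl_deriv (β : ℝ) (κ : ℂ) : HasDerivAt (Bl β κ) β 0 := by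
  have h0 : DifferentiableAt ℂ (fun z : ℂ => (β - κ * z) / (1 - β * κ * z)) 0 :=
    DifferentiableAt.fun_div (by fun_prop) (by fun_prop) (by simp)
  have h1 := (hasDerivAt_id' (0 : ℂ)).fun_mul h0.hasDerivAt
  simp only [mul_zero, sub_zero, div_one, one_mul, zero_mul, add_zero, ← mul_div_assoc] at h1
  exact h1

theorem exists_sqrt {φ : ℂ → ℂ} (hφ : DifferentiableOn ℂ φ (ball 0 1))
    (h0 : ∀ z ∈ ball (0 : ℂ) 1, φ z ≠ 0) :
    ∃ s : ℂ → ℂ, DifferentiableOn ℂ s (ball 0 1) ∧ ∀ z, s z ^ 2 = φ z := by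
  have : ContractibleSpace (ball (0 : ℂ) 1) :=
    (convex_ball _ _).contractibleSpace (nonempty_ball.mpr one_pos)
  obtain ⟨s, hs, hs'⟩ := Complex.exists_continuousOn_pow_eq (U := ball (0 : ℂ) 1)
    (SimplyConnectedSpace.ofContractible _) isOpen_ball hφ.continuousOn
    (by rintro ⟨z, hz, h⟩; exact h0 z hz h) (n := 2) (by norm_num)
  refine ⟨s, fun w hw => ?_, hs'⟩
  have hw0 : s w + s w ≠ 0 := by
    rw [← two_mul]
    refine mul_ne_zero two_ne_zero fun h => h0 w hw ?_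
    rw [← hs', h]; simp
  have hc : ContinuousAt s w := hs.continuousAt (isOpen_ball.mem_nhds hw)
  have h1 := hasDerivAt_iff_tendsto_slope.mp
    (hφ.differentiableAt (isOpen_ball.mem_nhds hw)).hasDerivAt
  have h2 : Tendsto (fun z => s z + s w) (𝓝[≠] w) (𝓝 (s w + s w)) :=
    (hc.tendsto.add_const _).mono_left nhdsWithin_le_nhds
  refine (hasDerivAt_iff_tendsto_slope.mpr ((h1.div h2 hw0).congr' ?_)).differentiableAt.differentiableWithinAt
  filter_upwards [h2.eventually_ne hw0] with z hz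
  simp only [Pi.div_apply, slope_def_field, ← hs']
  field_simp
  ring

theorem koebe {v : ℂ → ℂ} (hv : Self v) {t : ℝ} (hd : deriv v 0 = t) {q : ℝ} (h0 : 0 < q)
    (h1 : q < 1) {a : ℂ} (ha : ‖a‖ = q ^ 2) (hna : a ∉ v '' ball 0 1) :
    ∃ (w : ℂ → ℂ) (κ : ℂ), Self w ∧ ‖κ‖ = 1 ∧ deriv w 0 = (t / (2 * q / (1 + q ^ 2)) : ℝ) ∧
      ∀ z ∈ ball (0 : ℂ) 1, v z = Bl (2 * q / (1 + q ^ 2)) κ (w z) := by
  have ha1 : ‖a‖ < 1 := by rw [ha]; nlinarith
  have hvz : ∀ z ∈ ball (0 : ℂ) 1, ‖v z‖ < 1 := fun z hz => mem_ball_zero_iff.mp (hv.maps hz)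
  have den : ∀ z ∈ ball (0 : ℂ) 1, 1 - (starRingEnd ℂ) a * v z ≠ 0 := fun z hz =>
    one_sub_ne (norm_mul_lt (by simpa using ha1.le) (hvz z hz))
  obtain ⟨s, hs, hs'⟩ := exists_sqrt (φ := fun z => (v z - a) / (1 - (starRingEnd ℂ) a * v z))
    ((hv.diff.sub_const a).div ((hv.diff.const_mul _).const_sub 1) den)
    fun z hz => div_ne_zero (sub_ne_zero.mpr fun h => hna ⟨z, hz, h⟩) (den z hz)
  have hsz : ∀ z ∈ ball (0 : ℂ) 1, ‖s z‖ < 1 := fun z hz => by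
    have := moebius (hvz z hz) ha1
    rw [← hs', norm_pow] at this
    nlinarith [norm_nonneg (s z)]
  obtain ⟨b, hb⟩ : ∃ b, b = s 0 := ⟨_, rfl⟩
  have hba : a = -b ^ 2 := by rw [hb, hs', hv.zero]; simp
  have hbq : ‖b‖ = q := by
    rw [hba, norm_neg, norm_pow] at ha
    exact (sq_eq_sq₀ (norm_nonneg _) h0.le).mp ha
  obtain ⟨c, hc⟩ : ∃ c, c = (starRingEnd ℂ) b := ⟨_, rfl⟩
  have hbc : b * c = (q : ℂ) ^ 2 := by
    rw [hc, Complex.mul_conj, Complex.normSq_eq_norm_sq, hbq]; push_cast; rfl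
  have hq0 : (q : ℂ) ≠ 0 := by exact_mod_cast h0.ne'
  have hq1 : (1 : ℂ) + q ^ 2 ≠ 0 := by exact_mod_cast (by positivity : (1 + q ^ 2 : ℝ) ≠ 0)
  have hq2 : (1 : ℂ) - q ^ 2 ≠ 0 := by
    exact_mod_cast (by nlinarith : (0 : ℝ) < 1 - q ^ 2).ne'
  have hcn : ‖c‖ ≤ 1 := by rw [hc, Complex.norm_conj, hbq]; exact h1.le
  have den2 : ∀ z ∈ ball (0 : ℂ) 1, 1 - c * s z ≠ 0 := fun z hz =>
    one_sub_ne (norm_mul_lt hcn (hsz z hz))
  have den3 : ∀ z ∈ ball (0 : ℂ) 1, 1 + c * s z ≠ 0 := fun z hz => by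
    have := one_sub_ne (p := -(c * s z)) (by rw [norm_neg]; exact norm_mul_lt hcn (hsz z hz))
    rwa [sub_neg_eq_add] at this
  have hβ0 : 0 < 2 * q / (1 + q ^ 2) := by positivity
  have hβ1 : 2 * q / (1 + q ^ 2) < 1 := by
    rw [div_lt_one (by positivity)]; nlinarith
  have hκ : ‖-(c / q) ^ 2‖ = 1 := by
    rw [norm_neg, norm_pow, norm_div, hc, Complex.norm_conj, hbq, Complex.norm_real,
      Real.norm_eq_abs, abs_of_pos h0, div_self h0.ne', one_pow]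
  let w : ℂ → ℂ := fun z => b / q * ((s z - b) / (1 - c * s z))
  have hwd : DifferentiableOn ℂ w (ball 0 1) :=
    ((hs.sub_const b).div ((hs.const_mul c).const_sub 1) den2).const_mul _
  have hw0 : w 0 = 0 := by simp [w, hb]
  have hvw : ∀ z ∈ ball (0 : ℂ) 1, v z = Bl (2 * q / (1 + q ^ 2)) (-(c / q) ^ 2) (w z) := by
    intro z hz
    have e1 := hs' z
    rw [eq_div_iff (den z hz), hba, map_neg, map_pow, ← hc] at e1
    have d2 := den2 z hz
    have d3 := den3 z hz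
    have e2 : v z = (s z ^ 2 - b ^ 2) / ((1 - c * s z) * (1 + c * s z)) := by
      rw [eq_div_iff (mul_ne_zero d2 d3)]
      linear_combination -e1
    have e3 : 1 - ((2 * q / (1 + q ^ 2) : ℝ) : ℂ) * -(c / q) ^ 2 * w z =
        (1 - q ^ 2) * (1 + c * s z) / ((1 + q ^ 2) * (1 - c * s z)) := by
      simp only [w]
      push_cast
      field_simp
      linear_combination (2 * c * s z - 2 * b * c - 2 * q ^ 2) * hbc
    have e4 : w z * (((2 * q / (1 + q ^ 2) : ℝ) : ℂ) - -(c / q) ^ 2 * w z) =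
        (1 - q ^ 2) * (s z ^ 2 - b ^ 2) / ((1 + q ^ 2) * (1 - c * s z) ^ 2) := by
      have f1 : w z * (((2 * q / (1 + q ^ 2) : ℝ) : ℂ) - -(c / q) ^ 2 * w z) =
          (s z - b) / (1 - c * s z) * (2 * b / (1 + q ^ 2) + (s z - b) / (1 - c * s z)) := by
        simp only [w]
        generalize (s z - b) / (1 - c * s z) = ξ
        push_cast
        field_simp
        linear_combination (ξ ^ 2 * (1 + q ^ 2) * (b * c + q ^ 2)) * hbc
      have f2 : 2 * b / (1 + q ^ 2) + (s z - b) / (1 - c * s z) =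
          (1 - q ^ 2) * (s z + b) / ((1 + q ^ 2) * (1 - c * s z)) := by
        rw [div_add_div _ _ hq1 d2]
        congr 1
        linear_combination (-2 * s z) * hbc
      rw [f1, f2]
      field_simp
      ring
    rw [Bl, e3, e4, e2]
    field_simp
  have hwm : MapsTo w (ball 0 1) (ball 0 1) := fun z hz => by
    rw [mem_ball_zero_iff]
    refine norm_mul_lt ?_ (hc ▸ moebius (hsz z hz) (hbq ▸ h1))
    rw [norm_div, hbq, Complex.norm_real, Real.norm_eq_abs, abs_of_pos h0, div_self h0.ne']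
  refine ⟨w, -(c / q) ^ 2, ⟨hwd, fun z hz z' hz' h => hv.inj hz hz' ?_, hwm, hw0⟩, hκ, ?_, hvw⟩
  · rw [hvw z hz, hvw z' hz', h]
  · have d1 := (hwd.differentiableAt (ball_mem_nhds _ one_pos)).hasDerivAt
    have d2 := HasDerivAt.comp (0 : ℂ) (hw0 ▸ Bl_deriv (2 * q / (1 + q ^ 2)) (-(c / q) ^ 2)) d1
    have d3 := (d2.congr_of_eventuallyEq (f₁ := v) (by
      filter_upwards [ball_mem_nhds (0 : ℂ) one_pos] with z hz using hvw z hz)).deriv
    rw [hd] at d3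
    rw [Complex.ofReal_div, d3, mul_div_cancel_left₀]
    exact_mod_cast hβ0.ne'

end Pool.Agent.P.MP_c09211_an
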