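import Pool.Agent.P.MP_c09211_an.Step
import Pool.Agent.P.MP_c09211_an.Koebe

/-!
The theorem of de Branges (the inequality conjectured by Milin) for bounded univalent functions.
-/

set_option autoImplicit false

namespace Pool.Agent.P.MP_c09211_an

open Metric Set Filter Topology PowerSeries

/-- Admissible outer functions. -/
structure Adm (R : ℝ) (F : ℂ → ℂ) : Prop where
  diff : DifferentiableOn ℂ F (ball 0 1)
  bdd : ∀ z ∈ ball (0 : ℂ) 1, ‖F z‖ ≤ R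
  zero : F 0 = 0

/-- The functional of de Branges of a function. -/
noncomputable def PsiF (n : ℕ) (F : ℂ → ℂ) : ℝ := Psi n ‖deriv F 0‖⁻¹ (ld (tay F))

theorem half_sub : sphere (0 : ℂ) (1 / 2) ⊆ ball 0 1 :=
  sphere_subset_closedBall.trans (closedBall_subset_ball (by norm_num))

theorem an0 {f : ℂ → ℂ} (hf : DifferentiableOn ℂ f (ball 0 1)) : AnalyticAt ℂ f 0 :=
  hf.analyticAt (ball_mem_nhds _ one_pos)

theorem expand_fam {ι : Type} {R : ℝ} {F w U : ι → ℂ → ℂ} {η t : ι → ℝ} (hF : ∀ i, Adm R (F i))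
    (hU : ∀ i, DifferentiableOn ℂ (U i) (ball 0 1))
    (hU3 : ∀ i, ∀ z ∈ sphere (0 : ℂ) (1 / 2), ‖U i z‖ ≤ 3)
    (hw : ∀ i, ∀ z ∈ ball (0 : ℂ) 1, w i z = z * (1 - η i * U i z))
    (hw' : ∀ i, HasDerivAt (w i) (t i) 0) (ht0 : ∀ i, 0 < t i) (ht1 : ∀ i, t i ≤ 1)
    (hη0 : ∀ i, 0 < η i) (hη1 : ∀ i, η i ≤ 1) (h1 : ∀ i, 1 ≤ t i * ‖deriv (F i) 0‖) :
    (∀ i, ‖deriv (fun z => F i (w i z)) 0‖ = t i * ‖deriv (F i) 0‖) ∧
    Bd (fun i => tay (U i)) ∧ (∀ i, coeff 0 (ld (tay (F i))) = 1) ∧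
    Bd (fun i => ld (tay (F i))) ∧ ∃ e : ι → ℂ⟦X⟧, Bd e ∧ ∀ i, ld (tay fun z => F i (w i z)) =
      ld (tay (F i)) - C (η i : ℂ) * th (tay (U i) * ld (tay (F i))) + C (η i : ℂ) ^ 2 * e i := by
  have hw0 : ∀ i, w i 0 = 0 := fun i => by rw [hw i 0 (mem_ball_self one_pos), zero_mul]
  have hev : ∀ i, w i =ᶠ[𝓝 0] fun z => z * (1 + (-η i) * U i z) := fun i => by
    filter_upwards [ball_mem_nhds (0 : ℂ) one_pos] with z hz
    rw [hw i z hz]; ring
  have hUa := fun i => an0 (hU i)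
  have hwa : ∀ i, AnalyticAt ℂ (w i) 0 := fun i =>
    AnalyticAt.congr (by have := hUa i; fun_prop) (hev i).symm
  have htw : ∀ i, tay (w i) = X * (1 - C (η i : ℂ) * tay (U i)) := fun i => by
    have := hUa i
    rw [tay_congr (hev i), tay_mul (by fun_prop) (by fun_prop), tay_id,
      tay_add (by fun_prop) (by fun_prop), tay_const, tay_cmul _ this, map_one, map_neg]
    ring
  have hd : ∀ i, ‖deriv (fun z => F i (w i z)) 0‖ = t i * ‖deriv (F i) 0‖ := fun i => by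
    have h2 : HasDerivAt (F i) (deriv (F i) 0) (w i 0) := by
      rw [hw0 i]; exact (an0 (hF i).diff).differentiableAt.hasDerivAt
    have h3 : deriv (fun z => F i (w i z)) 0 = deriv (F i) 0 * t i := (h2.comp 0 (hw' i)).deriv
    rw [h3, norm_mul, Complex.norm_real, Real.norm_eq_abs, abs_of_pos (ht0 i), mul_comm]
  have hU' : Bd (fun i => tay (U i)) := fun k => ⟨3 * 2 ^ k, fun i => tay_bound (hU i) (hU3 i) k⟩
  have hF0 : ∀ i, coeff 0 (tay (F i)) = 0 := fun i => by rw [tay_coeff_zero, (hF i).zero]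
  have hF1 : ∀ i, 1 ≤ ‖coeff 1 (tay (F i))‖ := fun i => by
    rw [tay_coeff_one]
    exact (h1 i).trans (mul_le_of_le_one_left (norm_nonneg _) (ht1 i))
  refine ⟨hd, hU', fun i => ld_zero (hF0 i) (norm_pos_iff.mp (by linarith [hF1 i])), ?_⟩
  refine ld_expand (η := fun i => (η i : ℂ)) ⟨1, fun i => ?_⟩
    (fun i => by exact_mod_cast (hη0 i).ne') hU'
    (fun k => ⟨R * 2 ^ k, fun i => tay_bound (hF i).diff (fun z hz => (hF i).bdd z (half_sub hz)) k⟩)
    (fun i N => ?_) hF0 hF1 (fun i => ?_) (fun i => ?_)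
  · rw [Complex.norm_real, Real.norm_eq_abs, abs_of_pos (hη0 i)]; exact hη1 i
  · rw [← htw]; exact tay_comp (an0 (hF i).diff) (hwa i) (hw0 i) N
  · rw [tay_coeff_zero, hw0, (hF i).zero]
  · rw [tay_coeff_one, hd]; exact h1 i

theorem step_const (n : ℕ) (R : ℝ) : ∃ c : ℝ, 0 ≤ c ∧ ∀ (F : ℂ → ℂ) (β : ℝ) (κ : ℂ), Adm R F →
    0 < β → β < 1 → ‖κ‖ = 1 → 1 ≤ β * ‖deriv F 0‖ →
    PsiF n (fun z => F (Bl β κ z)) ≤ PsiF n F + (1 - β) ^ 2 * c := by
  let ι := {p : (ℂ → ℂ) × ℝ × ℂ // Adm R p.1 ∧ 0 < p.2.1 ∧ p.2.1 < 1 ∧ ‖p.2.2‖ = 1 ∧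
    1 ≤ p.2.1 * ‖deriv p.1 0‖}
  have den : ∀ i : ι, ∀ z ∈ ball (0 : ℂ) 1, 1 - i.1.2.1 * i.1.2.2 * z ≠ 0 := fun i z hz =>
    Bl_den i.2.2.1.le i.2.2.2.1 i.2.2.2.2.1 (mem_ball_zero_iff.mp hz)
  have hUd : ∀ i : ι, DifferentiableOn ℂ
      (fun z => (1 + i.1.2.2 * z) / (1 - i.1.2.1 * i.1.2.2 * z)) (ball 0 1) := fun i =>
    DifferentiableOn.fun_div (by fun_prop) (by fun_prop) (den i)
  obtain ⟨h1, h2, h3, h4, e, h5, h6⟩ := expand_fam (ι := ι) (R := R) (F := fun i => i.1.1)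
    (w := fun i => Bl i.1.2.1 i.1.2.2)
    (U := fun i z => (1 + i.1.2.2 * z) / (1 - i.1.2.1 * i.1.2.2 * z)) (η := fun i => 1 - i.1.2.1)
    (t := fun i => i.1.2.1) (fun i => i.2.1) hUd
    (fun i z hz => by
      obtain ⟨⟨F, β, κ⟩, -, b0, b1, hκ, -⟩ := i
      dsimp only at *
      have hz' := mem_sphere_zero_iff_norm.mp hz
      have a1 : ‖1 + κ * z‖ ≤ 3 / 2 := (norm_add_le _ _).trans (by
        rw [norm_mul, hκ, hz', norm_one]; norm_num)
      have a2 : 1 / 2 ≤ ‖1 - β * κ * z‖ := le_trans (by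
        rw [norm_mul, norm_mul, hκ, hz', norm_one, Complex.norm_real, Real.norm_eq_abs,
          abs_of_pos b0]; linarith) (norm_sub_norm_le _ _)
      rw [norm_div, div_le_iff₀ (by linarith)]
      linarith)
    (fun i z hz => by
      have := den i z hz
      simp only [Bl]
      rw [← mul_div_assoc, one_sub_div this, ← mul_div_assoc]
      push_cast
      congr 1
      ring)
    (fun i => Bl_deriv _ _) (fun i => i.2.2.1) (fun i => i.2.2.2.1.le)
    (fun i => sub_pos.mpr i.2.2.2.1) (fun i => by linarith [i.2.2.1]) (fun i => i.2.2.2.2.2)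
  have hx : ∀ i : ι, 1 ≤ ‖deriv i.1.1 0‖ := fun i =>
    i.2.2.2.2.2.trans (mul_le_of_le_one_left (norm_nonneg _) i.2.2.2.1.le)
  obtain ⟨c, hc0, hc⟩ := psi_step n (ι := ι) (x := fun i => ‖deriv i.1.1 0‖⁻¹)
    (x' := fun i => (i.1.2.1 * ‖deriv i.1.1 0‖)⁻¹) (η := fun i => 1 - i.1.2.1)
    (κ := fun i => i.1.2.2) (fun i => by positivity) (fun i => inv_le_one_of_one_le₀ (hx i))
    ⟨1, fun i => by
      rw [Real.norm_eq_abs, abs_of_nonneg (by have := i.2.2.1; positivity)]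
      exact inv_le_one_of_one_le₀ i.2.2.2.2.2⟩
    ⟨1, fun i => by
      rw [Real.norm_eq_abs, abs_of_pos (sub_pos.mpr i.2.2.2.1)]; linarith [i.2.2.1]⟩
    (fun i => by
      have := i.2.2.1.ne'
      have : ‖deriv i.1.1 0‖ ≠ 0 := by linarith [hx i]
      field_simp
      ring)
    (fun i => (sub_pos.mpr i.2.2.2.1).le) (fun i => i.2.2.2.2.1) h4 h2 h5 h3 h6
    (fun i => by
      have a1 := tay_mul (an0 (hUd i)) (g := fun z => 1 + (-(i.1.2.1 * i.1.2.2)) * z) (by fun_prop)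
      rw [tay_add (by fun_prop) (by fun_prop), tay_const, tay_cmul _ (by fun_prop), tay_id,
        tay_congr (g := fun z => 1 + i.1.2.2 * z) (by
          filter_upwards [ball_mem_nhds (0 : ℂ) one_pos] with z hz
          have := den i z hz
          rw [neg_mul, ← sub_eq_add_neg, div_mul_cancel₀ _ this]),
        tay_add (by fun_prop) (by fun_prop), tay_const, tay_cmul _ (by fun_prop), tay_id, map_one,
        map_neg, neg_mul, ← sub_eq_add_neg] at a1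
      rw [a1]
      push_cast
      rw [sub_sub_cancel])
  refine ⟨c, hc0, fun F β κ a1 a2 a3 a4 a5 => ?_⟩
  have := hc ⟨(F, β, κ), a1, a2, a3, a4, a5⟩
  have h1' := h1 ⟨(F, β, κ), a1, a2, a3, a4, a5⟩
  dsimp only at this h1'
  unfold PsiF
  rwa [h1']

theorem Self.deriv_le {v : ℂ → ℂ} (hv : Self v) : ‖deriv v 0‖ ≤ 1 :=
  Complex.norm_deriv_le_one_of_mapsTo_ball hv.diff
    (by rw [hv.zero]; exact hv.maps.mono_right ball_subset_closedBall) one_pos

theorem last_bound {v : ℂ → ℂ} {t r : ℝ} (hv : Self v) (hd : deriv v 0 = t) (r1 : r < 1)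
    (rt : r ≤ t) (a1 : t ≤ 1) {z : ℂ} (hz : z ∈ sphere (0 : ℂ) (1 / 2)) :
    ‖(1 - dslope v 0 z) / ((1 - r : ℝ) : ℂ)‖ ≤ 3 := by
  have a0 : DifferentiableOn ℂ (dslope v 0) (ball 0 1) :=
    (Complex.differentiableOn_dslope (ball_mem_nhds _ one_pos)).mpr hv.diff
  have a2 : 0 < 1 - r := sub_pos.mpr r1
  have hz' := mem_sphere_zero_iff_norm.mp hz
  have b1 := Complex.borelCaratheodory_zero (f := fun z => dslope v 0 z - t) a2
    (a0.sub_const _) (fun y hy => by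
      have := Complex.norm_dslope_le_div_of_mapsTo_ball (R₂ := 1) hv.diff
        (by rw [hv.zero]; exact hv.maps.mono_right ball_subset_closedBall) hy
      have b2 := (Complex.re_le_norm _).trans this
      simp only [mem_ofPred_eq, Complex.sub_re, Complex.ofReal_re]
      linarith) one_pos (half_sub hz) (by rw [dslope_same, hd, sub_self])
  rw [hz', show 2 * (1 - r) * (1 / 2) / (1 - 1 / 2) = 2 * (1 - r) by ring] at b1
  have b3 : ‖1 - dslope v 0 z‖ ≤ ‖((1 - t : ℝ) : ℂ)‖ + ‖dslope v 0 z - t‖ := by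
    refine le_trans (le_of_eq ?_) (norm_sub_le _ _)
    push_cast; ring_nf
  rw [Complex.norm_real, Real.norm_eq_abs, abs_of_nonneg (by linarith)] at b3
  rw [norm_div, Complex.norm_real, Real.norm_eq_abs, abs_of_pos a2, div_le_iff₀ a2]
  linarith

theorem last_const (n : ℕ) (R : ℝ) : ∃ c : ℝ, 0 ≤ c ∧ ∀ (F v : ℂ → ℂ) (t r : ℝ), Adm R F →
    Self v → deriv v 0 = t → 0 < r → r < 1 → r ≤ t → 1 ≤ t * ‖deriv F 0‖ →
    PsiF n (fun z => F (v z)) ≤ PsiF n F + (1 - r) * c := by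
  let ι := {p : (ℂ → ℂ) × (ℂ → ℂ) × ℝ × ℝ // Adm R p.1 ∧ Self p.2.1 ∧ deriv p.2.1 0 = p.2.2.1 ∧
    0 < p.2.2.2 ∧ p.2.2.2 < 1 ∧ p.2.2.2 ≤ p.2.2.1 ∧ 1 ≤ p.2.2.1 * ‖deriv p.1 0‖}
  have ht1 : ∀ i : ι, i.1.2.2.1 ≤ 1 := fun i => by
    have := i.2.2.1.deriv_le
    rw [i.2.2.2.1, Complex.norm_real] at this
    exact (le_abs_self _).trans this
  have ht0 : ∀ i : ι, 0 < i.1.2.2.1 := fun i => i.2.2.2.2.1.trans_le i.2.2.2.2.2.2.1
  have hη : ∀ i : ι, 0 < 1 - i.1.2.2.2 := fun i => sub_pos.mpr i.2.2.2.2.2.1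
  have hg : ∀ i : ι, DifferentiableOn ℂ (dslope i.1.2.1 0) (ball 0 1) := fun i =>
    (Complex.differentiableOn_dslope (ball_mem_nhds _ one_pos)).mpr i.2.2.1.diff
  obtain ⟨h1, h2, h3, h4, e, h5, h6⟩ := expand_fam (ι := ι) (R := R) (F := fun i => i.1.1)
    (w := fun i => i.1.2.1)
    (U := fun i z => (1 - dslope i.1.2.1 0 z) / ((1 - i.1.2.2.2 : ℝ) : ℂ))
    (η := fun i => 1 - i.1.2.2.2) (t := fun i => i.1.2.2.1) (fun i => i.2.1)
    (fun i => ((hg i).const_sub 1).div_const _)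
    (fun i z hz => last_bound i.2.2.1 i.2.2.2.1 i.2.2.2.2.2.1 i.2.2.2.2.2.2.1 (ht1 i) hz)
    (fun i z _ => by
      have a : ((1 - i.1.2.2.2 : ℝ) : ℂ) ≠ 0 := by exact_mod_cast (hη i).ne'
      have := sub_smul_dslope i.1.2.1 0 z
      rw [i.2.2.1.zero, sub_zero, sub_zero, smul_eq_mul] at this
      rw [mul_div_cancel₀ _ a, sub_sub_cancel, this])
    (fun i => i.2.2.2.1 ▸ (an0 i.2.2.1.diff).differentiableAt.hasDerivAt) ht0 ht1 hη
    (fun i => by linarith [i.2.2.2.2.1]) (fun i => i.2.2.2.2.2.2.2)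
  have hx : ∀ i : ι, 1 ≤ ‖deriv i.1.1 0‖ := fun i =>
    i.2.2.2.2.2.2.2.trans (mul_le_of_le_one_left (norm_nonneg _) (ht1 i))
  have hηb : Bs fun i : ι => 1 - i.1.2.2.2 := ⟨1, fun i => by
    rw [Real.norm_eq_abs, abs_of_pos (hη i)]; linarith [i.2.2.2.2.1]⟩
  obtain ⟨c, hc0, hc⟩ := psi_last n (ι := ι) (x := fun i => ‖deriv i.1.1 0‖⁻¹)
    (x' := fun i => (i.1.2.2.1 * ‖deriv i.1.1 0‖)⁻¹) (η := fun i => 1 - i.1.2.2.2)
    (y := fun i => (i.1.2.2.1 * ‖deriv i.1.1 0‖)⁻¹ * ((1 - i.1.2.2.1) / (1 - i.1.2.2.2)))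
    (d' := fun i => ld (tay fun z => i.1.1 (i.1.2.1 z)))
    ⟨1, fun i => by
      rw [Real.norm_eq_abs, abs_of_nonneg (by positivity)]
      exact inv_le_one_of_one_le₀ (hx i)⟩
    ⟨1, fun i => by
      have a1 := sub_nonneg.mpr (ht1 i)
      have a2 := hη i
      have a3 := ht0 i
      rw [Real.norm_eq_abs, abs_of_nonneg (by positivity)]
      refine mul_le_one₀ (inv_le_one_of_one_le₀ i.2.2.2.2.2.2.2) (by positivity) ?_
      rw [div_le_one a2]
      linarith [i.2.2.2.2.2.2.1]⟩ hηb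
    (fun i => by
      have := (ht0 i).ne'
      have := (hη i).ne'
      have : ‖deriv i.1.1 0‖ ≠ 0 := by linarith [hx i]
      field_simp
      ring)
    (fun i => (hη i).le) h4 (((Bd.C hηb.ofReal).mul h5).sub (h2.mul h4).th)
    (fun i => by rw [h6 i]; ring)
  refine ⟨c, hc0, fun F v t r a1 a2 a3 a4 a5 a6 a7 => ?_⟩
  have := hc ⟨(F, v, t, r), a1, a2, a3, a4, a5, a6, a7⟩
  have h1' := h1 ⟨(F, v, t, r), a1, a2, a3, a4, a5, a6, a7⟩
  dsimp only at this h1'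
  unfold PsiF
  rwa [h1']

theorem PsiF_congr (n : ℕ) {f g : ℂ → ℂ} (h : ∀ z ∈ ball (0 : ℂ) 1, f z = g z) :
    PsiF n f = PsiF n g := by
  have : f =ᶠ[𝓝 0] g := by filter_upwards [ball_mem_nhds (0 : ℂ) one_pos] with z hz using h z hz
  unfold PsiF
  rw [tay_congr this, this.deriv_eq]

theorem chain (n : ℕ) (R : ℝ) : ∃ c : ℝ, 0 ≤ c ∧ ∀ q : ℝ, 0 < q → q < 1 → ∀ (N : ℕ) (F v : ℂ → ℂ)
    (t : ℝ), Adm R F → Self v → deriv v 0 = t → 1 ≤ t * ‖deriv F 0‖ →
    (2 * q / (1 + q ^ 2)) ^ N ≤ t → PsiF n (fun z => F (v z)) ≤ PsiF n F +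
      (N * (1 - 2 * q / (1 + q ^ 2)) ^ 2 + (1 - q ^ 2)) * c := by
  obtain ⟨c1, h1, H1⟩ := step_const n R
  obtain ⟨c2, h2, H2⟩ := last_const n R
  refine ⟨c1 + c2, by positivity, fun q q0 q1 N => ?_⟩
  set β := 2 * q / (1 + q ^ 2) with hβ
  have β0 : 0 < β := by positivity
  have β1 : β < 1 := by rw [hβ, div_lt_one (by positivity)]; nlinarith
  have r1 : q ^ 2 < 1 := by nlinarith
  have last : ∀ (N : ℕ) (F v : ℂ → ℂ) (t : ℝ), Adm R F → Self v → deriv v 0 = t →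
      1 ≤ t * ‖deriv F 0‖ → q ^ 2 ≤ t → PsiF n (fun z => F (v z)) ≤ PsiF n F +
      (N * (1 - β) ^ 2 + (1 - q ^ 2)) * (c1 + c2) := by
    intro N F v t a1 a2 a3 a4 a5
    refine (H2 F v t (q ^ 2) a1 a2 a3 (by positivity) r1 a5 a4).trans (add_le_add_right ?_ _)
    exact mul_le_mul (le_add_of_nonneg_left (by positivity)) (by linarith) h2
      (add_nonneg (by positivity) (by linarith))
  induction N with
  | zero => exact fun F v t a1 a2 a3 a4 a5 => last 0 F v t a1 a2 a3 a4 (by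
      rw [pow_zero] at a5; linarith)
  | succ N ih =>
    intro F v t a1 a2 a3 a4 a5
    by_cases hc : q ^ 2 ≤ t
    · exact last _ F v t a1 a2 a3 a4 hc
    have t0 : 0 < t := lt_of_lt_of_le (by positivity) a5
    have hns : ¬ sphere (0 : ℂ) (q ^ 2) ⊆ v '' ball 0 1 := fun h => hc (by
      have := cover a2 (by rw [a3]; exact_mod_cast t0.ne') (by positivity) h
      rwa [a3, Complex.norm_real, Real.norm_eq_abs, abs_of_pos t0] at this)
    obtain ⟨a, ha, hna⟩ := not_subset.mp hns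
    obtain ⟨w, κ, w1, w2, w3, w4⟩ := koebe a2 a3 q0 q1 (mem_sphere_zero_iff_norm.mp ha) hna
    rw [← hβ] at w3 w4
    have tb : t ≤ β := by
      have := w1.deriv_le
      rw [w3, Complex.norm_real, Real.norm_eq_abs, abs_of_pos (by positivity),
        div_le_one β0] at this
      exact this
    have hF' : Adm R fun z => F (Bl β κ z) :=
      ⟨a1.diff.comp (Bl_diff β0.le β1 w2) (Bl_maps β0.le β1 w2),
        fun z hz => a1.bdd _ (Bl_maps β0.le β1 w2 hz), by rw [Bl_zero, a1.zero]⟩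
    have hd : ‖deriv (fun z => F (Bl β κ z)) 0‖ = β * ‖deriv F 0‖ := by
      have b2 : HasDerivAt F (deriv F 0) (Bl β κ 0) := by
        rw [Bl_zero]; exact (an0 a1.diff).differentiableAt.hasDerivAt
      have b3 : deriv (fun z => F (Bl β κ z)) 0 = deriv F 0 * β := (b2.comp 0 (Bl_deriv β κ)).deriv
      rw [b3, norm_mul, Complex.norm_real, Real.norm_eq_abs, abs_of_pos β0, mul_comm]
    have s1 := H1 F β κ a1 β0 β1 w2 (a4.trans (mul_le_mul_of_nonneg_right tb (norm_nonneg _)))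
    have s2 := ih _ w (t / β) hF' w1 w3 (by rwa [hd, ← mul_assoc, div_mul_cancel₀ _ β0.ne'])
      (by rwa [le_div_iff₀ β0, ← pow_succ])
    rw [PsiF_congr n (g := fun z => F (Bl β κ (w z))) fun z hz => by rw [w4 z hz]]
    have := mul_nonneg (sq_nonneg (1 - β)) h2
    push_cast
    linarith

theorem milin (n : ℕ) {f : ℂ → ℂ} (hf : DifferentiableOn ℂ f (ball 0 1)) (hi : InjOn f (ball 0 1))
    (h0 : f 0 = 0) (h1 : deriv f 0 = 1) {R : ℝ} (hR : ∀ z ∈ ball (0 : ℂ) 1, ‖f z‖ < R) :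
    ∑ k ∈ Finset.range n, ((n : ℝ) - k) * ((‖coeff (k + 1) (ld (tay f))‖ ^ 2 - 4) / (k + 1)) ≤
      0 := by
  have R0 : 0 < R := by simpa [h0] using hR 0 (mem_ball_self one_pos)
  have RC : (R : ℂ) ≠ 0 := by exact_mod_cast R0.ne'
  obtain ⟨c, hc0, hc⟩ := chain n R
  have hv : Self fun z => f z / R :=
    ⟨hf.div_const _, fun z hz w hw h => hi hz hw ((div_left_inj' RC).mp h), fun z hz => by
      rw [mem_ball_zero_iff, norm_div, Complex.norm_real, Real.norm_eq_abs, abs_of_pos R0,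
        div_lt_one R0]
      exact hR z hz, by simp [h0]⟩
  have hvd : deriv (fun z => f z / R) 0 = ((R⁻¹ : ℝ) : ℂ) := by
    rw [deriv_div_const, h1]; simp
  have R1 : R⁻¹ ≤ 1 := by
    have := hv.deriv_le
    rwa [hvd, Complex.norm_real, Real.norm_eq_abs, abs_of_pos (by positivity)] at this
  have hF : Adm R fun z => R * z := ⟨by fun_prop, fun z hz => by
    rw [norm_mul, Complex.norm_real, Real.norm_eq_abs, abs_of_pos R0]
    exact mul_le_of_le_one_right R0.le (mem_ball_zero_iff.mp hz).le, by simp⟩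
  have hFd : ‖deriv (fun z : ℂ => R * z) 0‖ = R := by simp [abs_of_pos R0]
  have hP0 : PsiF n (fun z => R * z) ≤ 0 := by
    have e1 : tay (fun z => R * z) = C (R : ℂ) * X := by rw [tay_cmul _ (by fun_prop), tay_id]
    have e2 : ld (C (R : ℂ) * X) = 1 := by
      have a0 : coeff 1 (C (R : ℂ) * X) ≠ 0 := by simpa using R0.ne'
      have := ld_mul (F := C (R : ℂ) * X) (by simp) a0
      rw [th_mul, th_C, th_X, zero_mul, zero_add] at this
      exact mul_right_cancel₀ (fun h => a0 (by rw [h, map_zero])) (this.trans (one_mul _).symm)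
    unfold PsiF Psi
    rw [e1, e2, hFd]
    refine Finset.sum_nonpos fun k _ => mul_nonpos_of_nonneg_of_nonpos
      (tau_nonneg _ _ (by positivity) R1) (div_nonpos_of_nonpos_of_nonneg ?_ (by positivity))
    simp [coeff_one]
  have hP1 : PsiF n (fun z => R * (f z / R)) = ∑ k ∈ Finset.range n,
      ((n : ℝ) - k) * ((‖coeff (k + 1) (ld (tay f))‖ ^ 2 - 4) / (k + 1)) := by
    rw [PsiF_congr n (g := f) fun z _ => mul_div_cancel₀ _ RC]
    unfold PsiF Psi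
    rw [h1, norm_one, inv_one]
    refine Finset.sum_congr rfl fun k hk => ?_
    rw [tau_one (by have := Finset.mem_range.mp hk; omega)]
    push_cast
    ring
  rw [← hP1]
  refine le_of_forall_pos_le_add fun ε hε => ?_
  obtain ⟨δ, δ0, δ1, hδ⟩ : ∃ δ : ℝ, 0 < δ ∧ δ < 1 ∧ δ * ((R + 3) * c) ≤ ε := by
    refine ⟨min (1 / 2) (ε / ((R + 3) * c + 1)), by positivity,
      (min_le_left _ _).trans_lt (by norm_num), ?_⟩
    refine (mul_le_mul_of_nonneg_right (min_le_right _ _) (by positivity)).trans ?_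
    rw [div_mul_eq_mul_div, div_le_iff₀ (by positivity)]
    nlinarith
  set q := 1 - δ with hq
  have q0 : 0 < q := by linarith
  have q1 : q < 1 := by linarith
  set β := 2 * q / (1 + q ^ 2) with hβ
  have β0 : 0 < β := by positivity
  have β1 : β < 1 := by rw [hβ, div_lt_one (by positivity)]; nlinarith
  have β2 : 1 - β ≤ δ := by
    have : q ≤ β := by rw [hβ, le_div_iff₀ (by positivity)]; nlinarith [mul_pos q0 q0]
    linarith
  have η0 : 0 < 1 - β := by linarith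
  have hN1 : R ≤ ⌈R / (1 - β)⌉₊ * (1 - β) := by
    rw [← div_le_iff₀ η0]; exact Nat.le_ceil _
  have hN2 : ⌈R / (1 - β)⌉₊ * (1 - β) ≤ R + 1 := by
    have := mul_le_mul_of_nonneg_right (Nat.ceil_lt_add_one (by positivity : 0 ≤ R / (1 - β))).le
      η0.le
    rw [add_mul, div_mul_cancel₀ _ η0.ne'] at this
    linarith
  have hpow : β ^ ⌈R / (1 - β)⌉₊ ≤ R⁻¹ := by
    set N := ⌈R / (1 - β)⌉₊
    have a1 : 1 + N * (1 - β) ≤ (1 + (1 - β)) ^ N := one_add_mul_le_pow (by linarith) N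
    have a2 : β ^ N * (1 + (1 - β)) ^ N ≤ 1 := by
      rw [← mul_pow]; exact pow_le_one₀ (by nlinarith) (by nlinarith)
    rw [← one_div, le_div_iff₀ R0]
    have := mul_le_mul_of_nonneg_left (show R ≤ (1 + (1 - β)) ^ N by linarith) (pow_nonneg β0.le N)
    linarith
  have := hc q q0 q1 _ _ _ _ hF hv hvd (by rw [hFd, inv_mul_cancel₀ R0.ne']) hpow
  rw [← hβ] at this
  have a3 : ⌈R / (1 - β)⌉₊ * (1 - β) ^ 2 + (1 - q ^ 2) ≤ δ * (R + 3) := by
    have b1 := mul_le_mul hN2 β2 η0.le (by positivity)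
    nlinarith
  have a4 := mul_le_mul_of_nonneg_right a3 hc0
  nlinarith

end Pool.Agent.P.MP_c09211_an
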