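import Pool.Agent.P.MP_c09211_an.Koebe

/-!
A self-inversive polynomial `S` of degree `N` with `N - 2` zeros on the unit circle:
`N S - z S'` has at most one zero in the unit disc.
-/

set_option autoImplicit false

namespace Pool.Agent.P.MP_c09211_an

open Polynomial Complex
open scoped ComplexConjugate

/-- The form of Pick at two points. -/
noncomputable def EE (z w p r x y : ℂ) : ℂ :=
  (p + conj p) * (x * conj x) / (1 - z * conj z) - (p + conj r) * (x * conj y) / (1 - z * conj w) -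
    (r + conj p) * (y * conj x) / (1 - w * conj z) + (r + conj r) * (y * conj y) / (1 - w * conj w)

/-- Positivity of the form of Pick. -/
def Pos (z w p r : ℂ) : Prop := ∀ x y : ℂ, (EE z w p r x y).re ≤ 0 → x = 0 ∧ y = 0

theorem den_ne {z w : ℂ} (hz : ‖z‖ < 1) (hw : ‖w‖ < 1) : 1 - z * conj w ≠ 0 :=
  one_sub_ne (norm_mul_lt hz.le (by simpa using hw))

theorem Pos.const {z w : ℂ} (hz : ‖z‖ < 1) (hw : ‖w‖ < 1) (h : z ≠ w) {c : ℝ} (hc : 0 < c) :
    Pos z w c c := by
  intro x y hE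
  have a1 : 0 < 1 - ‖z‖ ^ 2 := by nlinarith [norm_nonneg z]
  have a2 : 0 < 1 - ‖w‖ ^ 2 := by nlinarith [norm_nonneg w]
  have a3 := norm_pos_iff.mpr (den_ne hz hw)
  have a4 : ‖1 - z * conj w‖ ^ 2 = (1 - ‖z‖ ^ 2) * (1 - ‖w‖ ^ 2) + ‖z - w‖ ^ 2 := by
    simp only [Complex.sq_norm, normSq_apply, sub_re, sub_im, mul_re, mul_im, one_re, one_im,
      conj_re, conj_im]
    ring
  have a5 : 0 < ‖z - w‖ ^ 2 := pow_pos (norm_pos_iff.mpr (sub_ne_zero.mpr h)) 2
  have a6 : EE z w c c x y = 2 * c * (((‖x‖ ^ 2 / (1 - ‖z‖ ^ 2) + ‖y‖ ^ 2 / (1 - ‖w‖ ^ 2) : ℝ) : ℂ) -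
      (x * conj y / (1 - z * conj w) + conj (x * conj y / (1 - z * conj w)))) := by
    simp only [EE, conj_ofReal, mul_conj', map_div₀, map_mul, map_sub, map_one, conj_conj]
    push_cast
    rw [mul_comm (conj z) w]
    ring
  have a7 : (x * conj y / (1 - z * conj w)).re ≤ ‖x‖ * ‖y‖ / ‖1 - z * conj w‖ :=
    (re_le_norm _).trans (by rw [norm_div, norm_mul, norm_conj])
  rw [a6, add_conj] at hE
  norm_cast at hE
  set D := ‖1 - z * conj w‖
  set d := 1 - ‖z‖ ^ 2
  set e := 1 - ‖w‖ ^ 2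
  have a8 : ‖x‖ ^ 2 / d + ‖y‖ ^ 2 / e - 2 * (‖x‖ * ‖y‖ / D) =
      (‖x‖ - ‖y‖ * d / D) ^ 2 / d + ‖y‖ ^ 2 * ((D ^ 2 - d * e) / (e * D ^ 2)) := by
    field_simp
    ring
  have a9 : 0 < (D ^ 2 - d * e) / (e * D ^ 2) := div_pos (by linarith) (by positivity)
  have b1 : ‖x‖ ^ 2 / d + ‖y‖ ^ 2 / e - 2 * (‖x‖ * ‖y‖ / D) ≤ 0 := by
    have := nonpos_of_mul_nonpos_right hE (by positivity)
    linarith
  have b2 : 0 ≤ (‖x‖ - ‖y‖ * d / D) ^ 2 / d := by positivity
  have b3 : y = 0 := by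
    by_contra hy
    have := mul_pos (pow_pos (norm_pos_iff.mpr hy) 2) a9
    linarith
  refine ⟨by_contra fun hx => ?_, b3⟩
  have := div_pos (pow_pos (norm_pos_iff.mpr hx) 2) a1
  simp only [b3, norm_zero] at b1
  norm_num at b1
  linarith

theorem sub_ne {ζ z : ℂ} (hζ : ‖ζ‖ = 1) (hz : ‖z‖ < 1) : ζ - z ≠ 0 := fun h => by
  rw [← sub_eq_zero.mp h, hζ] at hz
  exact lt_irrefl _ hz

theorem ker_add {ζ z w : ℂ} (hζ : ‖ζ‖ = 1) (hz : ‖z‖ < 1) (hw : ‖w‖ < 1) (p r x y : ℂ) :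
    (p + (ζ + z) / (ζ - z) + conj (r + (ζ + w) / (ζ - w))) * (x * conj y) / (1 - z * conj w) =
      (p + conj r) * (x * conj y) / (1 - z * conj w) + 2 * (x / (ζ - z) * conj (y / (ζ - w))) := by
  have a1 := den_ne hz hw
  have a2 := sub_ne hζ hz
  have a3 : conj ζ - conj w ≠ 0 := by rw [← map_sub]; exact (_root_.map_ne_zero _).mpr (sub_ne hζ hw)
  have a4 : ζ * conj ζ = 1 := by rw [mul_conj', hζ]; simp
  simp only [map_add, map_div₀, map_sub]
  field_simp
  linear_combination 2 * x * conj y * a4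

theorem Pos.add {ζ z w p r : ℂ} (hζ : ‖ζ‖ = 1) (hz : ‖z‖ < 1) (hw : ‖w‖ < 1) (h : Pos z w p r) :
    Pos z w (p + (ζ + z) / (ζ - z)) (r + (ζ + w) / (ζ - w)) := by
  intro x y hE
  refine h x y (le_trans ?_ hE)
  have : EE z w (p + (ζ + z) / (ζ - z)) (r + (ζ + w) / (ζ - w)) x y = EE z w p r x y +
      2 * ((x / (ζ - z) - y / (ζ - w)) * conj (x / (ζ - z) - y / (ζ - w))) := by
    unfold EE
    rw [ker_add hζ hz hz, ker_add hζ hz hw, ker_add hζ hw hz, ker_add hζ hw hw,
      map_sub _ (x / (ζ - z))]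
    ring
  rw [this, mul_conj, add_re]
  norm_cast
  linarith [normSq_nonneg (x / (ζ - z) - y / (ζ - w))]

theorem pick_two {z w p r a b c : ℂ} (hz : ‖z‖ < 1) (hw : ‖w‖ < 1) (hzw : z ≠ w)
    (h : Pos z w p r) (h1 : c * conj c = a * conj a) (h2 : c * conj b = b * conj a)
    (e1 : p * (a + b * z + c * z ^ 2) + 2 * (a - c * z ^ 2) = 0)
    (e2 : r * (a + b * w + c * w ^ 2) + 2 * (a - c * w ^ 2) = 0) : a = 0 ∧ b = 0 ∧ c = 0 := by
  have h3 : conj c * b = conj b * a := by simpa using congrArg conj h2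
  have key : ∀ {z w p r : ℂ}, ‖z‖ < 1 → ‖w‖ < 1 →
      p * (a + b * z + c * z ^ 2) + 2 * (a - c * z ^ 2) = 0 →
      r * (a + b * w + c * w ^ 2) + 2 * (a - c * w ^ 2) = 0 →
      (p + conj r) * ((a + b * z + c * z ^ 2) * conj (a + b * w + c * w ^ 2)) / (1 - z * conj w) =
        -2 * (2 * (a * conj a) * (1 + z * conj w) + a * conj b * conj w + b * conj a * z) := by
    intro z w p r hz hw e1 e2
    have e3 := congrArg conj e2
    simp only [map_add, map_mul, map_sub, map_pow, map_zero, map_ofNat] at e3 ⊢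
    rw [div_eq_iff (den_ne hz hw)]
    linear_combination (conj a + conj b * conj w + conj c * conj w ^ 2) * e1 +
      (a + b * z + c * z ^ 2) * e3 + 4 * z ^ 2 * conj w ^ 2 * h1 + 2 * z ^ 2 * conj w * h2 +
      2 * z * conj w ^ 2 * h3
  have hE : EE z w p r (a + b * z + c * z ^ 2) (a + b * w + c * w ^ 2) =
      -4 * ((a * (z - w)) * conj (a * (z - w))) := by
    unfold EE
    rw [key hz hz e1 e1, key hz hw e1 e2, key hw hz e2 e1, key hw hw e2 e2, map_mul, map_sub]
    ring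
  obtain ⟨x0, y0⟩ := h (a + b * z + c * z ^ 2) (a + b * w + c * w ^ 2) (by
    rw [hE, mul_conj, neg_mul, neg_re, neg_nonpos]
    exact_mod_cast mul_nonneg zero_le_four (normSq_nonneg (a * (z - w))))
  have a0 : a = 0 := by
    rw [x0, y0, mul_conj] at hE
    simpa [EE, sub_ne_zero.mpr hzw] using hE
  have c0 : c = 0 := by simpa [a0] using h1
  refine ⟨a0, mul_right_cancel₀ (sub_ne_zero.mpr hzw) ?_, c0⟩
  rw [a0, c0] at x0 y0
  linear_combination x0 - y0

theorem pick {z w : ℂ} (hz : ‖z‖ < 1) (hw : ‖w‖ < 1) (hzw : z ≠ w) (s : Finset ℂ) :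
    ∀ (S : ℂ[X]) (μ p r : ℂ), (∀ ζ ∈ s, ‖ζ‖ = 1 ∧ S.eval ζ = 0) → S.natDegree ≤ s.card + 2 →
      ‖μ‖ = 1 → reflect (s.card + 2) (S.map (starRingEnd ℂ)) = C μ * S → Pos z w p r →
      (p + (s.card + 2)) * S.eval z - 2 * z * S.derivative.eval z = 0 →
      (r + (s.card + 2)) * S.eval w - 2 * w * S.derivative.eval w = 0 → S = 0 := by
  classical
  induction s using Finset.induction_on with
  | empty =>
    intro S μ p r _ hd hμ hr hp e1 e2
    simp only [Finset.card_empty, zero_add, Nat.cast_zero] at hd hr e1 e2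
    have hS : S = C (S.coeff 0) + C (S.coeff 1) * X + C (S.coeff 2) * X ^ 2 := by
      conv_lhs => rw [as_sum_range_C_mul_X_pow' S (Nat.lt_succ_of_le hd)]
      simp [Finset.sum_range_succ]
    have c0 := congrArg (coeff · 0) hr
    have c1 := congrArg (coeff · 1) hr
    have c2 := congrArg (coeff · 2) hr
    simp only [coeff_reflect, coeff_map, coeff_C_mul, revAt_le (Nat.zero_le 2),
      revAt_le one_le_two, revAt_le le_rfl, Nat.sub_zero, Nat.sub_self] at c0 c1 c2
    generalize S.coeff 0 = a at *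
    generalize S.coeff 1 = b at *
    generalize S.coeff 2 = c at *
    subst hS
    obtain ⟨rfl, rfl, rfl⟩ := pick_two (a := a) (b := b) (c := c) hz hw hzw hp
      (by rw [c0, c2]; ring) (by rw [c1, c2]; ring)
      (by simp at e1; linear_combination e1) (by simp at e2; linear_combination e2)
    simp
  | insert ζ s hs ih =>
    intro S μ p r h0 hd hμ hr hp e1 e2
    obtain ⟨hζ, h1⟩ := h0 ζ (Finset.mem_insert_self _ _)
    obtain ⟨T, rfl⟩ := dvd_iff_isRoot.mpr h1
    rw [Finset.card_insert_of_notMem hs] at hd hr e1 e2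
    rcases eq_or_ne T 0 with rfl | hT
    · simp
    have a4 : ζ * conj ζ = 1 := by rw [mul_conj', hζ]; simp
    have hd' : T.natDegree ≤ s.card + 2 := by
      rw [natDegree_mul (X_sub_C_ne_zero ζ) hT, natDegree_X_sub_C] at hd
      omega
    have key : ∀ {z p : ℂ}, ‖z‖ < 1 → (p + (((s.card + 1 : ℕ) : ℂ) + 2)) * ((X - C ζ) * T).eval z -
        2 * z * ((X - C ζ) * T).derivative.eval z = 0 →
        (p + (ζ + z) / (ζ - z) + (s.card + 2)) * T.eval z - 2 * z * T.derivative.eval z = 0 := by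
      intro z p hz e
      have := sub_ne hζ hz
      simp at e
      field_simp
      linear_combination -e
    refine absurd (ih T (-ζ * μ) _ _ (fun x hx => ?_) hd' (by simp [hζ, hμ]) ?_ (hp.add hζ hz hw)
      (key hz e1) (key hw e2)) hT
    · obtain ⟨b1, b2⟩ := h0 x (Finset.mem_insert_of_mem hx)
      refine ⟨b1, ?_⟩
      rw [eval_mul, mul_eq_zero, eval_sub, eval_X, eval_C, sub_eq_zero] at b2
      exact b2.resolve_left fun h => hs (h ▸ hx)
    · rw [Polynomial.map_mul, show s.card + 1 + 2 = 1 + (s.card + 2) by ring,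
        reflect_mul _ _ (natDegree_map_le.trans (natDegree_X_sub_C_le ζ))
          (natDegree_map_le.trans hd')] at hr
      have b1 : reflect 1 ((X - C ζ).map (starRingEnd ℂ)) = C (-conj ζ) * (X - C ζ) := by
        rw [Polynomial.map_sub, map_X, map_C, reflect_sub, reflect_one_X, reflect_C, mul_sub,
          ← map_mul, show -conj ζ * ζ = -1 by linear_combination -a4]
        simp only [map_neg, map_one]
        ring
      rw [b1] at hr
      refine mul_left_cancel₀ (X_sub_C_ne_zero ζ) ?_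
      have b2 : (C ζ : ℂ[X]) * C (conj ζ) = 1 := by rw [← map_mul, a4, map_one]
      simp only [map_neg, map_mul] at hr ⊢
      linear_combination -C ζ * hr - (X - C ζ) * reflect (s.card + 2) (T.map (starRingEnd ℂ)) * b2

end Pool.Agent.P.MP_c09211_an
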