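import Pool.Agent.P.MP_c09211_an.Milin

/-!
The inequality of Lebedev and Milin, and the inequality conjectured by Robertson.
-/

set_option autoImplicit false

namespace Pool.Agent.P.MP_c09211_an

open Metric Set Finset PowerSeries

/-- Coefficients of the solution of `X h' = c h`, `h 0 = 1`. -/
noncomputable def ex (c : ℕ → ℂ) : ℕ → ℂ
  | 0 => 1
  | k + 1 => (∑ j : Fin (k + 1), c (k + 1 - j) * ex c j) / (k + 1)
decreasing_by exact j.2

theorem coeff_mul_zero {c : ℂ⟦X⟧} (hc : coeff 0 c = 0) (h : ℂ⟦X⟧) (k : ℕ) :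
    coeff k (h * c) = ∑ j ∈ range k, coeff j h * coeff (k - j) c := by
  rw [coeff_mul, Finset.Nat.sum_antidiagonal_eq_sum_range_succ
    (fun i j => coeff i h * coeff j c), sum_range_succ, Nat.sub_self, hc, mul_zero, add_zero]

theorem exists_ex {c : ℂ⟦X⟧} (hc : coeff 0 c = 0) : ∃ h : ℂ⟦X⟧, coeff 0 h = 1 ∧ th h = h * c := by
  refine ⟨PowerSeries.mk (ex fun k => coeff k c), by simp [ex], ?_⟩
  ext k
  rw [coeff_th, coeff_mul_zero hc]
  cases k with
  | zero => simp
  | succ k =>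
    have : ((k + 1 : ℕ) : ℂ) ≠ 0 := by exact_mod_cast k.succ_ne_zero
    simp only [coeff_mk]
    rw [ex, ← Nat.cast_succ, mul_div_cancel₀ _ this,
      Finset.sum_range (fun j => ex (fun k => coeff k c) j * coeff (k + 1 - j) c)]
    exact sum_congr rfl fun j _ => mul_comm _ _

theorem ex_unique {c A B : ℂ⟦X⟧} (hc : coeff 0 c = 0) (h0 : coeff 0 A = coeff 0 B)
    (hA : th A = A * c) (hB : th B = B * c) : A = B := by
  ext k
  induction k using Nat.strong_induction_on with
  | _ k ih =>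
    rcases Nat.eq_zero_or_pos k with rfl | hk
    · exact h0
    have a := congrArg (coeff k) hA
    have b := congrArg (coeff k) hB
    rw [coeff_th, coeff_mul_zero hc] at a b
    rw [sum_congr rfl fun j hj => by rw [ih j (mem_range.mp hj)], ← b] at a
    exact mul_left_cancel₀ (by exact_mod_cast hk.ne') a

theorem lebedev_milin {c h : ℂ⟦X⟧} (hc : coeff 0 c = 0) (h0 : coeff 0 h = 1) (hh : th h = h * c)
    (n : ℕ) : ∑ k ∈ range (n + 1), ‖coeff k h‖ ^ 2 ≤ (n + 1) * Real.exp (∑ k ∈ range n,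
      (‖coeff (k + 1) c‖ ^ 2 - 1) * (1 / ((k : ℝ) + 1) - 1 / ((n : ℝ) + 1))) := by
  induction n with
  | zero => simp [h0]
  | succ n ih =>
    set A := ∑ k ∈ range (n + 1), ‖coeff (k + 1) c‖ ^ 2 with hA
    set B := ∑ k ∈ range (n + 1), ‖coeff k h‖ ^ 2 with hB
    have A0 : 0 ≤ A := by positivity
    have B0 : 0 ≤ B := by positivity
    have n0 : (0 : ℝ) < n + 1 := by positivity
    have e1 : ((n : ℝ) + 1) ^ 2 * ‖coeff (n + 1) h‖ ^ 2 ≤ B * A := by
      have a := congrArg (fun S => ‖coeff (n + 1) S‖) hh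
      simp only [coeff_th, coeff_mul_zero hc, norm_mul, Complex.norm_natCast] at a
      push_cast at a
      rw [← mul_pow, a]
      refine le_trans (pow_le_pow_left₀ (norm_nonneg _) (norm_sum_le _ _) 2) ?_
      simp only [norm_mul]
      refine (sum_mul_sq_le_sq_mul_sq _ _ _).trans (le_of_eq ?_)
      rw [hA, ← sum_range_reflect (fun k => ‖coeff (k + 1) c‖ ^ 2)]
      congr 1
      refine sum_congr rfl fun j hj => ?_
      have := mem_range.mp hj
      rw [show n + 1 - 1 - j + 1 = n + 1 - j by omega]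
    have e2 : ∑ k ∈ range (n + 1), (‖coeff (k + 1) c‖ ^ 2 - 1) *
        (1 / ((k : ℝ) + 1) - 1 / (((n + 1 : ℕ) : ℝ) + 1)) = ∑ k ∈ range n,
        (‖coeff (k + 1) c‖ ^ 2 - 1) * (1 / ((k : ℝ) + 1) - 1 / ((n : ℝ) + 1)) +
          (A - (n + 1)) / ((n + 1) * (n + 2)) := by
      have : A - (n + 1) = ∑ k ∈ range (n + 1), (‖coeff (k + 1) c‖ ^ 2 - 1) := by
        rw [sum_sub_distrib, hA]; simp
      rw [this, sum_div, ← add_zero (∑ k ∈ range n, _), ← mul_zero (‖coeff (n + 1) c‖ ^ 2 - 1),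
        ← sub_self (1 / ((n : ℝ) + 1)), ← sum_range_succ (fun k => (‖coeff (k + 1) c‖ ^ 2 - 1) *
          (1 / ((k : ℝ) + 1) - 1 / ((n : ℝ) + 1))), ← sum_add_distrib]
      refine sum_congr rfl fun k _ => ?_
      push_cast
      field_simp
      ring
    rw [sum_range_succ, e2, Real.exp_add, ← hB]
    set E := Real.exp (∑ k ∈ range n,
      (‖coeff (k + 1) c‖ ^ 2 - 1) * (1 / ((k : ℝ) + 1) - 1 / ((n : ℝ) + 1)))
    have e3 := Real.add_one_le_exp ((A - (n + 1)) / ((n + 1) * (n + 2)))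
    have e4 : B + ‖coeff (n + 1) h‖ ^ 2 ≤ B * (1 + A / (n + 1) ^ 2) := by
      rw [mul_add, mul_one, ← mul_div_assoc, add_le_add_iff_left, le_div_iff₀ (by positivity)]
      linarith
    have e5 : (n + 1) * (1 + A / (n + 1) ^ 2) =
        (n + 2) * ((A - (n + 1)) / ((n + 1) * (n + 2)) + 1) := by
      field_simp
      ring
    have E0 : 0 ≤ E := (Real.exp_pos _).le
    calc _ ≤ B * (1 + A / (n + 1) ^ 2) := e4
      _ ≤ (n + 1) * E * (1 + A / (n + 1) ^ 2) := by gcongr
      _ = E * ((n + 2) * ((A - (n + 1)) / ((n + 1) * (n + 2)) + 1)) := by rw [← e5]; ring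
      _ ≤ E * ((n + 2) * Real.exp ((A - (n + 1)) / ((n + 1) * (n + 2)))) := by gcongr
      _ = _ := by push_cast; ring

/-- The inequality conjectured by Robertson. -/
theorem robertson {f : ℂ → ℂ} (hf : DifferentiableOn ℂ f (ball 0 1)) (hi : InjOn f (ball 0 1))
    (h0 : f 0 = 0) (h1 : deriv f 0 = 1) {R : ℝ} (hR : ∀ z ∈ ball (0 : ℂ) 1, ‖f z‖ < R) :
    ∃ h : ℂ⟦X⟧, X * h ^ 2 = tay f ∧ ∀ N : ℕ, ∑ k ∈ range N, ‖coeff k h‖ ^ 2 ≤ N := by
  have a0 : coeff 0 (tay f) = 0 := by rw [tay_coeff_zero, h0]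
  have a1 : coeff 1 (tay f) = 1 := by rw [tay_coeff_one, h1]
  have d0 := ld_zero a0 (by rw [a1]; exact one_ne_zero)
  have d1 := ld_mul a0 (by rw [a1]; exact one_ne_zero)
  set d := ld (tay f) with hd
  have c0 : coeff 0 (C (1 / 2 : ℂ) * (d - 1)) = 0 := by
    rw [coeff_C_mul, map_sub, d0]; simp
  obtain ⟨h, b0, b1⟩ := exists_ex c0
  have hG := eq_X_mul_shift_add_const (tay f)
  rw [← coeff_zero_eq_constantCoeff_apply, a0, map_zero, add_zero] at hG
  set G := PowerSeries.mk fun p => coeff (p + 1) (tay f) with hG'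
  refine ⟨h, ?_, fun N => ?_⟩
  · rw [hG]
    congr 1
    refine ex_unique (c := d - 1) (by rw [map_sub, d0]; simp) ?_ ?_ ?_
    · rw [hG', coeff_mk, a1, sq, coeff_zero_eq_constantCoeff_apply, map_mul,
        ← coeff_zero_eq_constantCoeff_apply, b0, mul_one]
    · have : (C (1 / 2 : ℂ) : ℂ⟦X⟧) * 2 = 1 := by
        rw [← map_ofNat C 2, ← map_mul]; norm_num
      rw [sq, th_mul, b1]
      linear_combination h * h * (d - 1) * this
    · rw [hG, th_mul, th_X] at d1
      exact mul_left_cancel₀ X_ne_zero (by linear_combination -d1)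
  · cases N with
    | zero => simp
    | succ n =>
      refine (lebedev_milin c0 b0 b1 n).trans ?_
      push_cast
      refine mul_le_of_le_one_right (by positivity) (Real.exp_le_one_iff.mpr ?_)
      have := milin n hf hi h0 h1 hR
      rw [← hd] at this
      refine le_trans (le_of_eq ?_) (mul_nonpos_of_nonneg_of_nonpos
        (show (0 : ℝ) ≤ 1 / (4 * (n + 1)) by positivity) this)
      rw [mul_sum]
      refine sum_congr rfl fun k _ => ?_
      have : ‖coeff (k + 1) (C (1 / 2 : ℂ) * (d - 1))‖ = ‖coeff (k + 1) d‖ / 2 := by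
        rw [coeff_C_mul, map_sub, coeff_one, if_neg k.succ_ne_zero, sub_zero, norm_mul]
        simp [div_eq_inv_mul]
      rw [this]
      field_simp
      ring

end Pool.Agent.P.MP_c09211_an
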