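import Mathlib

/-!
The weights in the theorem of de Branges: Fourier coefficients of the Chebyshev polynomials
`U_n (1 - x + x cos t)`, and their positivity through symmetric powers of two by two matrices.
-/

set_option autoImplicit false

namespace Pool.Agent.P.MP_c09211_an

open Finset Polynomial

section ring

variable {K : Type} [CommRing K]

/-- The image of a monomial under a linear substitution, dehomogenised. -/
noncomputable def Ef (a b c d : K) (i l : ℕ) : K[X] := (C a * X + C c) ^ i * (C b * X + C d) ^ l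

theorem natDegree_lin (a c : K) : (C a * X + C c).natDegree ≤ 1 := by
  compute_degree

theorem natDegree_Ef (a b c d : K) (i l : ℕ) : (Ef a b c d i l).natDegree ≤ i + l := by
  unfold Ef
  refine natDegree_mul_le.trans (add_le_add ?_ ?_)
  · simpa using natDegree_pow_le_of_le i (natDegree_lin a c)
  · simpa using natDegree_pow_le_of_le l (natDegree_lin b d)

theorem coeff_lin_succ (a c : K) (P : K[X]) (j : ℕ) :
    ((C a * X + C c) * P).coeff (j + 1) = a * P.coeff j + c * P.coeff (j + 1) := by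
  rw [add_mul, coeff_add, mul_assoc, coeff_C_mul, coeff_X_mul, coeff_C_mul]

theorem coeff_lin_zero (a c : K) (P : K[X]) :
    ((C a * X + C c) * P).coeff 0 = c * P.coeff 0 := by
  simp

/-- Homogenised evaluation. -/
def Hom {L : Type} [CommRing L] (φ : K →+* L) (α β : L) (n : ℕ) (P : K[X]) : L :=
  ∑ j ∈ range (n + 1), φ (P.coeff j) * α ^ j * β ^ (n - j)

theorem Hom_lin {L : Type} [CommRing L] (φ : K →+* L) (α β : L) (n : ℕ) (P : K[X])
    (hP : P.natDegree ≤ n) (a c : K) :
    Hom φ α β (n + 1) ((C a * X + C c) * P) = (φ a * α + φ c * β) * Hom φ α β n P := by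
  have h0 : P.coeff (n + 1) = 0 := coeff_eq_zero_of_natDegree_lt (by omega)
  have e1 : φ c * β * Hom φ α β n P =
      ∑ j ∈ range (n + 1), φ c * φ (P.coeff (j + 1)) * α ^ (j + 1) * β ^ (n - j) +
        φ c * φ (P.coeff 0) * β ^ (n + 1) := by
    unfold Hom
    rw [sum_range_succ (fun j => φ c * φ (P.coeff (j + 1)) * α ^ (j + 1) * β ^ (n - j)) n, h0,
      map_zero, mul_zero, zero_mul, zero_mul, add_zero, mul_sum, sum_range_succ']
    congr 1
    · refine sum_congr rfl fun j hj => ?_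
      have : n - j = n - (j + 1) + 1 := by have := mem_range.mp hj; omega
      rw [this, pow_succ β]
      ring
    · simp only [Nat.sub_zero, pow_zero]; ring
  rw [add_mul (φ a * α), e1]
  unfold Hom
  rw [sum_range_succ', mul_sum, ← add_assoc, ← sum_add_distrib]
  congr 1
  · refine sum_congr rfl fun j _ => ?_
    rw [coeff_lin_succ, Nat.add_sub_add_right, map_add, map_mul, map_mul]
    ring
  · rw [coeff_lin_zero, map_mul]; simp

theorem Hom_Ef {L : Type} [CommRing L] (φ : K →+* L) (α β : L) (a b c d : K) (i l : ℕ) :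
    Hom φ α β (i + l) (Ef a b c d i l) = (φ a * α + φ c * β) ^ i * (φ b * α + φ d * β) ^ l := by
  induction i with
  | zero =>
    induction l with
    | zero => simp [Hom, Ef]
    | succ l ih =>
      have : Ef a b c d 0 (l + 1) = (C b * X + C d) * Ef a b c d 0 l := by unfold Ef; ring
      rw [this, ← add_assoc, Hom_lin _ _ _ _ _ (natDegree_Ef a b c d 0 l), ih]
      ring
  | succ i ih =>
    have : Ef a b c d (i + 1) l = (C a * X + C c) * Ef a b c d i l := by unfold Ef; ring
    rw [this, show i + 1 + l = i + l + 1 by ring, Hom_lin _ _ _ _ _ (natDegree_Ef a b c d i l), ih]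
    ring

/-- The trace of the symmetric power, with a shift. -/
noncomputable def Tr (a b c d : K) (s n : ℕ) : K :=
  ∑ i ∈ range (n + 1), (Ef a b c d i (n - i)).coeff (i + s)

theorem Tr_zero_succ (a b c d : K) (n : ℕ) :
    Tr a b c d 0 (n + 1) = d ^ (n + 1) + a * Tr a b c d 0 n + c * Tr a b c d 1 n := by
  unfold Tr
  rw [sum_range_succ', mul_sum, mul_sum, add_assoc, ← sum_add_distrib, add_comm]
  congr 1
  · simp [Ef, coeff_zero_eq_eval_zero]
  · refine sum_congr rfl fun i _ => ?_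
    have : Ef a b c d (i + 1) (n + 1 - (i + 1)) = (C a * X + C c) * Ef a b c d i (n - i) := by
      rw [Nat.add_sub_add_right]; unfold Ef; ring
    rw [this, add_zero, add_zero, coeff_lin_succ]

theorem Tr_one_succ (a b c d : K) (n : ℕ) :
    Tr a b c d 1 (n + 1) = b * Tr a b c d 0 n + d * Tr a b c d 1 n := by
  unfold Tr
  rw [sum_range_succ, mul_sum, mul_sum, ← sum_add_distrib,
    coeff_eq_zero_of_natDegree_lt (lt_of_le_of_lt (natDegree_Ef _ _ _ _ _ _) (by omega)), add_zero]
  refine sum_congr rfl fun i hi => ?_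
  have : Ef a b c d i (n + 1 - i) = (C b * X + C d) * Ef a b c d i (n - i) := by
    rw [show n + 1 - i = n - i + 1 by have := mem_range.mp hi; omega]; unfold Ef; ring
  rw [this, add_zero, coeff_lin_succ]

theorem Tr_rec (a b c d : K) (n : ℕ) :
    Tr a b c d 0 (n + 2) = (a + d) * Tr a b c d 0 (n + 1) - (a * d - b * c) * Tr a b c d 0 n := by
  rw [Tr_zero_succ a b c d (n + 1), Tr_one_succ, Tr_zero_succ a b c d n]
  ring

theorem Tr_zero (a b c d : K) : Tr a b c d 0 0 = 1 := by simp [Tr, Ef]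

theorem Tr_one (a b c d : K) : Tr a b c d 0 1 = a + d := by
  rw [Tr_zero_succ, Tr_zero]
  simp [Tr, Ef, coeff_one, add_comm]

theorem Ef_symm (a b c d : K) {n i j : ℕ} (hi : i ≤ n) (hj : j ≤ n) :
    (n.choose i : K) * (Ef a b c d i (n - i)).coeff j =
      (n.choose j : K) * (Ef a c b d j (n - j)).coeff i := by
  have h1 : ((C X : K[X][X]) * (C (C a) * X + C (C c)) + (C (C b) * X + C (C d))) ^ n =
      ∑ m ∈ range (n + 1), C (X ^ m * (n.choose m : K[X])) * (Ef a b c d m (n - m)).map C := by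
    rw [add_pow]
    refine sum_congr rfl fun m _ => ?_
    simp only [Ef, Polynomial.map_mul, Polynomial.map_pow, Polynomial.map_add, map_C, map_X,
      map_mul, map_pow, map_natCast, mul_pow]
    ring
  have h2 : ((C X : K[X][X]) * (C (C a) * X + C (C c)) + (C (C b) * X + C (C d))) ^ n =
      ∑ m ∈ range (n + 1), C ((n.choose m : K[X]) * Ef a c b d m (n - m)) * X ^ m := by
    rw [show ((C X : K[X][X]) * (C (C a) * X + C (C c)) + (C (C b) * X + C (C d))) =
      X * C (C a * X + C b) + C (C c * X + C d) by simp only [map_add, map_mul]; ring, add_pow]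
    refine sum_congr rfl fun m _ => ?_
    simp only [Ef, map_mul, map_pow, map_natCast]
    ring
  have h3 := congrArg (fun P : K[X][X] => (P.coeff j).coeff i) (h1.symm.trans h2)
  simp only [finsetSum_coeff, coeff_C_mul, coeff_map, coeff_X_pow] at h3
  rw [sum_eq_single i, sum_eq_single j] at h3
  · rw [if_pos rfl, mul_one, ← C_eq_natCast, ← C_eq_natCast, coeff_C_mul, mul_assoc, ← C_mul,
      mul_comm (X ^ i), coeff_C_mul, coeff_X_pow, if_pos rfl, mul_one] at h3
    exact h3
  · intro m _ hm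
    rw [if_neg hm.symm, mul_zero, coeff_zero]
  · intro h; exact absurd (mem_range.mpr (by omega)) h
  · intro m _ hm
    rw [← C_eq_natCast, mul_assoc, ← C_mul, mul_comm (X ^ m), coeff_C_mul, coeff_X_pow,
      if_neg hm.symm, mul_zero]
  · intro h; exact absurd (mem_range.mpr (by omega)) h

end ring

/-- The polynomial `Y ^ n * U_n (a ^ 2 + b ^ 2 * (Y + 1 / Y) / 2)`, as a trace. -/
noncomputable def Qn (a b : ℝ) (n : ℕ) : ℝ[X] :=
  Tr (C a * C a * X + C b * C b * X ^ 2) (C b * C a - C a * C b * X)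
    (C a * C b * X - C b * C a * X ^ 2) (C b * C b + C a * C a * X) 0 n

theorem Qn_coeff_nonneg (a b : ℝ) (n l : ℕ) : 0 ≤ (Qn a b n).coeff l := by
  unfold Qn Tr
  rw [finsetSum_coeff]
  refine sum_nonneg fun i hi => ?_
  have hi' : i ≤ n := Nat.lt_succ_iff.mp (mem_range.mp hi)
  have h := Hom_Ef ((C : ℝ[X] →+* ℝ[X][X]).comp C) (C (C a) * X + C (C b))
    (C X * (C (C (-b)) * X + C (C a))) a b (-b) a i (n - i)
  have e : Ef (C a * C a * X + C b * C b * X ^ 2) (C b * C a - C a * C b * X)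
      (C a * C b * X - C b * C a * X ^ 2) (C b * C b + C a * C a * X) i (n - i) =
      C (X ^ i) * Hom ((C : ℝ[X] →+* ℝ[X][X]).comp C) (C (C a) * X + C (C b))
        (C X * (C (C (-b)) * X + C (C a))) (i + (n - i)) (Ef a b (-b) a i (n - i)) := by
    rw [h, ← mul_assoc, C_pow, ← mul_pow]
    unfold Ef
    simp only [RingHom.comp_apply, map_add, map_mul, map_sub, map_pow, map_neg]
    refine congrArg₂ (· * ·) (congrArg (· ^ i) ?_) (congrArg (· ^ (n - i)) ?_) <;> ring
  rw [e, Nat.add_sub_cancel' hi', add_zero]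
  unfold Hom
  rw [mul_sum, finsetSum_coeff, finsetSum_coeff]
  refine sum_nonneg fun j hj => ?_
  have hj' : j ≤ n := Nat.lt_succ_iff.mp (mem_range.mp hj)
  have e2 : C (X ^ i) * (((C : ℝ[X] →+* ℝ[X][X]).comp C) ((Ef a b (-b) a i (n - i)).coeff j) *
      (C (C a) * X + C (C b)) ^ j * (C X * (C (C (-b)) * X + C (C a))) ^ (n - j)) =
      C (C ((Ef a b (-b) a i (n - i)).coeff j) * X ^ (i + (n - j))) *
        (Ef a (-b) b a j (n - j)).map C := by
    simp only [Ef, RingHom.comp_apply, Polynomial.map_mul, Polynomial.map_pow, Polynomial.map_add,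
      map_C, map_X, map_mul, map_pow, mul_pow]
    ring
  rw [e2, coeff_C_mul, coeff_map, mul_right_comm, ← C_mul, coeff_C_mul, coeff_X_pow]
  refine mul_nonneg ?_ (by split_ifs <;> norm_num)
  have s := Ef_symm a b (-b) a hi' hj'
  have p1 : (0 : ℝ) < n.choose i := by exact_mod_cast Nat.choose_pos hi'
  have p2 : (0 : ℝ) < n.choose j := by exact_mod_cast Nat.choose_pos hj'
  refine le_of_mul_le_mul_left ?_ p2
  rw [mul_zero, mul_left_comm, ← s, mul_left_comm]
  exact mul_nonneg p1.le (mul_self_nonneg _)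

theorem Qn_rec (a b : ℝ) (h : a ^ 2 + b ^ 2 = 1) (n : ℕ) :
    Qn a b (n + 2) = (C (2 * a ^ 2) * X + C (b ^ 2) * X ^ 2 + C (b ^ 2)) * Qn a b (n + 1) -
      X ^ 2 * Qn a b n := by
  have h' : (C a : ℝ[X]) ^ 2 + C b ^ 2 = 1 := by
    rw [← C_pow, ← C_pow, ← C_add, h, C_1]
  unfold Qn
  rw [Tr_rec]
  refine congrArg₂ (· - ·) (congrArg (· * _) ?_) (congrArg (· * _) ?_)
  · simp only [map_mul, map_pow, map_ofNat]; ring
  · linear_combination (X ^ 2 * ((C a : ℝ[X]) ^ 2 + C b ^ 2 + 1)) * h'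

/-- The Fourier coefficients of `U_n (1 - x + x cos t)`, as polynomials in `x`. -/
noncomputable def Lam : ℕ → ℤ → ℝ[X]
  | 0, k => if k = 0 then 1 else 0
  | 1, k => if k = 0 then 2 * (1 - X) else if k = 1 ∨ k = -1 then X else 0
  | n + 2, k => 2 * (1 - X) * Lam (n + 1) k + X * (Lam (n + 1) (k - 1) + Lam (n + 1) (k + 1)) -
      Lam n k

theorem Lam_eq_zero : ∀ (n : ℕ) (k : ℤ), (n < k ∨ k < -n) → Lam n k = 0
  | 0, k, h => by rw [Lam, if_neg (by omega)]
  | 1, k, h => by rw [Lam, if_neg (by omega), if_neg (by omega)]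
  | n + 2, k, h => by
    rw [Lam, Lam_eq_zero (n + 1) k (by omega), Lam_eq_zero (n + 1) (k - 1) (by omega),
      Lam_eq_zero (n + 1) (k + 1) (by omega), Lam_eq_zero n k (by omega)]
    ring

theorem coeff_Qn (a b : ℝ) (h : a ^ 2 + b ^ 2 = 1) :
    ∀ (n l : ℕ), (Qn a b n).coeff l = (Lam n (l - n)).eval (b ^ 2)
  | 0, l => by
    rw [Qn, Tr_zero, Lam, coeff_one]
    by_cases hl : l = 0
    · simp [hl]
    · rw [if_neg hl, if_neg (by omega), eval_zero]
  | 1, l => by
    have : Qn a b 1 = C (2 * a ^ 2) * X + C (b ^ 2) * X ^ 2 + C (b ^ 2) := by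
      rw [Qn, Tr_one]; simp only [map_mul, map_pow, map_ofNat]; ring
    rw [this, Lam]
    simp only [coeff_add, coeff_C_mul, coeff_X_pow, coeff_X, coeff_C]
    rcases l with _ | _ | _ | l
    · simp
    · simp; linarith
    · simp
    · rw [if_neg (by omega), if_neg (by omega), if_neg (by omega), if_neg (by omega),
        if_neg (by omega)]
      simp
  | n + 2, l => by
    rw [Qn_rec a b h, Lam]
    simp only [add_mul, mul_assoc, coeff_sub, coeff_add, coeff_C_mul, eval_sub, eval_add, eval_mul,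
      eval_X, eval_ofNat, eval_one]
    rw [show 1 - b ^ 2 = a ^ 2 by linarith]
    rcases l with _ | _ | l
    · rw [Lam_eq_zero (n + 1) (((0 : ℕ) : ℤ) - (n + 2 : ℕ)) (by omega),
        Lam_eq_zero (n + 1) (((0 : ℕ) : ℤ) - (n + 2 : ℕ) - 1) (by omega),
        Lam_eq_zero n (((0 : ℕ) : ℤ) - (n + 2 : ℕ)) (by omega), coeff_Qn a b h (n + 1) 0,
        show ((0 : ℕ) : ℤ) - (n + 2 : ℕ) + 1 = ((0 : ℕ) : ℤ) - (n + 1 : ℕ) by omega]
      simp
    · rw [Lam_eq_zero (n + 1) (((0 + 1 : ℕ) : ℤ) - (n + 2 : ℕ) - 1) (by omega),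
        Lam_eq_zero n (((0 + 1 : ℕ) : ℤ) - (n + 2 : ℕ)) (by omega), coeff_X_mul,
        coeff_Qn a b h (n + 1) 0, coeff_Qn a b h (n + 1) (0 + 1),
        show ((0 + 1 : ℕ) : ℤ) - (n + 2 : ℕ) + 1 = ((0 + 1 : ℕ) : ℤ) - (n + 1 : ℕ) by omega,
        show ((0 + 1 : ℕ) : ℤ) - (n + 2 : ℕ) = ((0 : ℕ) : ℤ) - (n + 1 : ℕ) by omega]
      simp [coeff_X_pow_mul']
    · rw [coeff_X_mul, show l + 1 + 1 = l + 2 by ring, coeff_X_pow_mul, coeff_X_pow_mul,
        coeff_Qn a b h (n + 1) l, coeff_Qn a b h (n + 1) (l + 1), coeff_Qn a b h (n + 1) (l + 2),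
        coeff_Qn a b h n l,
        show ((l + 2 : ℕ) : ℤ) - (n + 2 : ℕ) + 1 = ((l + 2 : ℕ) : ℤ) - (n + 1 : ℕ) by omega,
        show ((l + 2 : ℕ) : ℤ) - (n + 2 : ℕ) - 1 = (l : ℤ) - (n + 1 : ℕ) by omega,
        show ((l + 2 : ℕ) : ℤ) - (n + 2 : ℕ) = ((l + 1 : ℕ) : ℤ) - (n + 1 : ℕ) by omega,
        show (l : ℤ) - n = ((l + 1 : ℕ) : ℤ) - (n + 1 : ℕ) by omega]
      ring

theorem Lam_nonneg (n k : ℕ) {x : ℝ} (h0 : 0 ≤ x) (h1 : x ≤ 1) : 0 ≤ (Lam n k).eval x := by
  have h := coeff_Qn (√(1 - x)) (√x) (by rw [Real.sq_sqrt h0, Real.sq_sqrt (by linarith)]; ring)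
    n (n + k)
  rw [Real.sq_sqrt h0, show ((n + k : ℕ) : ℤ) - n = k by omega] at h
  rw [← h]
  exact Qn_coeff_nonneg _ _ _ _

theorem Lam_deriv : ∀ (n : ℕ) (k : ℤ), X * derivative (Lam n k + Lam n (k + 1)) =
    (k : ℝ[X]) * Lam n k - (k + 1 : ℝ[X]) * Lam n (k + 1)
  | 0, k => by
    simp only [Lam]
    split_ifs with h1 h2 h2
    · omega
    · simp [h1]
    · have : (k : ℝ[X]) + 1 = 0 := by exact_mod_cast congrArg (Int.cast : ℤ → ℝ[X]) h2
      simp [this]
    · simp
  | 1, k => by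
    simp only [Lam]
    by_cases h0 : k = 0
    · subst h0; simp; ring
    by_cases h1 : k = 1
    · subst h1; simp
    by_cases h2 : k = -1
    · subst h2; simp; ring
    by_cases h3 : k = -2
    · subst h3; simp; ring
    rw [if_neg h0, if_neg (by omega), if_neg (by omega), if_neg (by omega)]
    simp
  | n + 2, k => by
    have h1 := Lam_deriv (n + 1) k
    have h2 := Lam_deriv (n + 1) (k - 1)
    have h3 := Lam_deriv (n + 1) (k + 1)
    have h4 := Lam_deriv n k
    simp only [Lam, sub_add_cancel, add_sub_cancel_right, derivative_add, derivative_sub,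
      derivative_mul, derivative_X, derivative_one, derivative_ofNat] at h1 h2 h3 h4 ⊢
    push_cast at h2 h3
    linear_combination 2 * (1 - X) * h1 + X * h2 + X * h3 - h4

theorem Lam_one : ∀ (n : ℕ) (k : ℤ), (Lam n k + Lam n (k + 1)).eval 1 =
    if -(n : ℤ) - 1 ≤ k ∧ k ≤ n then 1 else 0
  | 0, k => by
    simp only [Lam]
    split_ifs <;> first | omega | simp
  | 1, k => by
    simp only [Lam]
    split_ifs <;> first | omega | simp
  | n + 2, k => by
    have h2 := Lam_one (n + 1) (k - 1)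
    have h3 := Lam_one (n + 1) (k + 1)
    have h4 := Lam_one n k
    simp only [Lam, sub_add_cancel, add_sub_cancel_right, eval_add, eval_sub, eval_mul, eval_X,
      eval_one, sub_self, mul_zero, zero_mul, zero_add, one_mul] at h2 h3 h4 ⊢
    split_ifs at h2 h3 h4 ⊢ <;> first | omega | linarith

/-- The weights of de Branges. -/
noncomputable def tau (n k : ℕ) : ℝ[X] := ∑ j ∈ Ico k (n + 1), (Lam n j + Lam n (j + 1))

theorem tau_succ {n k : ℕ} (hk : k ≤ n) :
    tau n k = tau n (k + 1) + Lam n k + Lam n ((k + 1 : ℕ) : ℤ) := by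
  unfold tau
  rw [sum_eq_sum_Ico_succ_bot (by omega)]
  push_cast
  ring

theorem tau_last (n : ℕ) : tau n (n + 1) = 0 := by simp [tau]

theorem tau_deriv {n k : ℕ} (hk : k ≤ n + 1) :
    X * derivative (tau n k) = (k : ℝ[X]) * Lam n k := by
  induction hk using Nat.decreasingInduction with
  | self => rw [tau_last, Lam_eq_zero n _ (by omega)]; simp
  | of_succ k hk ih =>
    have := Lam_deriv n k
    rw [tau_succ (by omega), add_assoc, derivative_add, mul_add, ih]
    push_cast at this ⊢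
    rw [this]
    ring

theorem tau_one {n k : ℕ} (hk : k ≤ n + 1) : (tau n k).eval 1 = (n + 1 - k : ℝ) := by
  induction hk using Nat.decreasingInduction with
  | self => rw [tau_last]; simp
  | of_succ k hk ih =>
    have := Lam_one n k
    rw [if_pos (by omega)] at this
    rw [tau_succ (by omega), add_assoc, eval_add, ih]
    push_cast
    rw [this]
    ring

theorem tau_nonneg (n k : ℕ) {x : ℝ} (h0 : 0 ≤ x) (h1 : x ≤ 1) : 0 ≤ (tau n k).eval x := by
  unfold tau
  rw [eval_finsetSum]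
  refine sum_nonneg fun j _ => ?_
  rw [eval_add]
  exact add_nonneg (Lam_nonneg n j h0 h1) (by exact_mod_cast Lam_nonneg n (j + 1) h0 h1)

end Pool.Agent.P.MP_c09211_an
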