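import Pool.Agent.P.MP_c09211_an.Tay
import Pool.Agent.P.MP_c09211_an.SU2

/-!
The functional of de Branges and its change in one step.
-/

set_option autoImplicit false

namespace Pool.Agent.P.MP_c09211_an

open Finset PowerSeries

/-- The functional of de Branges. -/
noncomputable def Psi (n : ℕ) (x : ℝ) (d : ℂ⟦X⟧) : ℝ :=
  ∑ k ∈ range n, (tau n (k + 1)).eval x * ((‖coeff (k + 1) d‖ ^ 2 - 4) / (k + 1))

variable {ι : Type}

theorem Bs.eval {x : ι → ℝ} (hx : Bs x) (p : Polynomial ℝ) : Bs fun i => p.eval (x i) := by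
  induction p using Polynomial.induction_on with
  | C a => simpa using Bs.const a
  | add p q hp hq => simpa using hp.add hq
  | monomial n a ih => exact (ih.mul hx).congr fun i => by simp [pow_succ, mul_assoc]

theorem poly_taylor {x h : ι → ℝ} (hx : Bs x) (hh : Bs h) (p : Polynomial ℝ) :
    ∃ r : ι → ℝ, Bs r ∧ ∀ i, p.eval (x i + h i) =
      p.eval (x i) + (Polynomial.derivative p).eval (x i) * h i + h i ^ 2 * r i := by
  induction p using Polynomial.induction_on with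
  | C a => exact ⟨fun _ => 0, Bs.const _, fun i => by simp⟩
  | add p q hp hq =>
    obtain ⟨r, hr, h1⟩ := hp
    obtain ⟨r', hr', h2⟩ := hq
    refine ⟨_, hr.add hr', fun i => ?_⟩
    simp only [Polynomial.eval_add, Polynomial.derivative_add, h1, h2]
    ring
  | monomial n a ih =>
    obtain ⟨r, hr, h1⟩ := ih
    refine ⟨_, (hx.eval (Polynomial.derivative (Polynomial.C a * Polynomial.X ^ n))).add
      (hr.mul (hx.add hh)), fun i => ?_⟩
    rw [pow_succ, ← mul_assoc, Polynomial.derivative_mul (f := Polynomial.C a * Polynomial.X ^ n)]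
    simp only [Polynomial.eval_add, Polynomial.eval_mul (p := Polynomial.C a * Polynomial.X ^ n),
      Polynomial.eval_mul (q := Polynomial.X), h1, Polynomial.eval_X, Polynomial.derivative_X,
      Polynomial.eval_one]
    ring

theorem Bs.norm {s : ι → ℂ} (hs : Bs s) : Bs fun i => ‖s i‖ := by
  obtain ⟨c, h⟩ := hs
  exact ⟨c, fun i => by simpa using h i⟩

theorem Bs.re {s : ι → ℂ} (hs : Bs s) : Bs fun i => (s i).re := by
  obtain ⟨c, h⟩ := hs
  exact ⟨c, fun i => (Complex.abs_re_le_norm _).trans (h i)⟩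

theorem Bs.conj {s : ι → ℂ} (hs : Bs s) : Bs fun i => (starRingEnd ℂ) (s i) := by
  obtain ⟨c, h⟩ := hs
  exact ⟨c, fun i => by simpa using h i⟩

theorem Bs.ofReal {s : ι → ℝ} (hs : Bs s) : Bs fun i => (s i : ℂ) := by
  obtain ⟨c, h⟩ := hs
  exact ⟨c, fun i => by simpa using h i⟩

theorem Bs.le {s : ι → ℝ} (hs : Bs s) : ∃ c : ℝ, 0 ≤ c ∧ ∀ i, s i ≤ c := by
  obtain ⟨c, h⟩ := hs
  exact ⟨|c|, abs_nonneg _, fun i => (le_abs_self _).trans ((h i).trans (le_abs_self _))⟩

theorem norm_sq_add (D Z : ℂ) (t : ℝ) :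
    ‖D + t * Z‖ ^ 2 = ‖D‖ ^ 2 + 2 * t * (D * (starRingEnd ℂ) Z).re + t ^ 2 * (‖Z‖ * ‖Z‖) := by
  rw [← pow_two ‖Z‖]
  simp only [Complex.sq_norm, Complex.normSq_apply, Complex.add_re, Complex.add_im,
    Complex.mul_re, Complex.mul_im, Complex.ofReal_re, Complex.ofReal_im, Complex.conj_re,
    Complex.conj_im]
  ring

theorem main_ineq (n : ℕ) {x : ℝ} (h0 : 0 ≤ x) (h1 : x ≤ 1) (s : ℕ → ℂ) (hs : s 0 = 1) {κ : ℂ}
    (hκ : ‖κ‖ = 1) :
    ∑ k ∈ range n, ((Lam n ((k + 1 : ℕ) : ℤ)).eval x * (‖s (k + 1) - κ * s k‖ ^ 2 - 4) -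
      2 * (tau n (k + 1)).eval x *
        ((s (k + 1) - κ * s k) * (starRingEnd ℂ) (s (k + 1) + κ * s k)).re) ≤ 0 := by
  have e1 : ∀ a b : ℂ, ((a - b) * (starRingEnd ℂ) (a + b)).re = ‖a‖ ^ 2 - ‖b‖ ^ 2 := by
    intro a b
    simp only [Complex.sq_norm, Complex.normSq_apply, Complex.add_re, Complex.add_im,
      Complex.mul_re, Complex.sub_re, Complex.sub_im, Complex.conj_re, Complex.conj_im]
    ring
  have e2 : ∀ a b : ℂ, ‖a - b‖ ^ 2 ≤ 2 * ‖a‖ ^ 2 + 2 * ‖b‖ ^ 2 := by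
    intro a b
    simp only [Complex.sq_norm, Complex.normSq_apply, Complex.sub_re, Complex.sub_im]
    nlinarith [sq_nonneg (a.re + b.re), sq_nonneg (a.im + b.im)]
  have e3 : ∀ k, ‖κ * s k‖ = ‖s k‖ := fun k => by rw [norm_mul, hκ, one_mul]
  have key : ∀ m ≤ n, ∑ k ∈ range m, ((tau n (k + 1)).eval x * (‖s (k + 1)‖ ^ 2 - ‖s k‖ ^ 2) -
      (Lam n ((k + 1 : ℕ) : ℤ)).eval x * (‖s (k + 1)‖ ^ 2 + ‖s k‖ ^ 2 - 2)) =
      ((tau n (m + 1)).eval x + (Lam n ((m + 1 : ℕ) : ℤ)).eval x) * (‖s m‖ ^ 2 - 1) := by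
    intro m hm
    induction m with
    | zero => simp [hs]
    | succ m ih =>
      rw [sum_range_succ, ih (by omega), tau_succ hm]
      simp only [Polynomial.eval_add]
      ring
  have k1 := key n le_rfl
  rw [tau_last, Lam_eq_zero n _ (by omega), Polynomial.eval_zero, add_zero, zero_mul] at k1
  have k2 := congrArg (fun t : ℝ => -2 * t) k1
  simp only [mul_zero, mul_sum] at k2
  refine le_trans (sum_le_sum fun k _ => ?_) k2.le
  rw [e1, e3]
  have := mul_le_mul_of_nonneg_left (e2 (s (k + 1)) (κ * s k)) (Lam_nonneg n (k + 1) h0 h1)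
  rw [e3] at this
  linarith

theorem psi_step (n : ℕ) {x x' η : ι → ℝ} {κ : ι → ℂ} {d d' u e : ι → ℂ⟦X⟧}
    (hx0 : ∀ i, 0 ≤ x i) (hx1 : ∀ i, x i ≤ 1) (hx' : Bs x') (hη : Bs η)
    (hxx : ∀ i, x' i * (1 - η i) = x i) (hη0 : ∀ i, 0 ≤ η i) (hκ : ∀ i, ‖κ i‖ = 1)
    (hd : Bd d) (hu : Bd u) (he : Bd e) (hd0 : ∀ i, coeff 0 (d i) = 1)
    (h : ∀ i, d' i = d i - C (η i : ℂ) * th (u i * d i) + C (η i : ℂ) ^ 2 * e i)
    (hu' : ∀ i, u i * (1 - C ((1 - η i) * κ i) * X) = 1 + C (κ i) * X) :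
    ∃ c : ℝ, 0 ≤ c ∧ ∀ i, Psi n (x' i) (d' i) ≤ Psi n (x i) (d i) + η i ^ 2 * c := by
  have hx : Bs x := ⟨1, fun i => by rw [Real.norm_eq_abs, abs_of_nonneg (hx0 i)]; exact hx1 i⟩
  have hκb : Bs κ := ⟨1, fun i => (hκ i).le⟩
  let G : ι → ℂ⟦X⟧ := fun i => PowerSeries.mk fun k => κ i ^ k
  have hG : Bd G := fun k => ⟨1, fun i => by simp [G, hκ i]⟩
  have hG1 : ∀ i, G i * (1 - C (κ i) * X) = 1 := by
    intro i
    ext k
    rw [mul_sub, mul_one, ← mul_assoc, map_sub]
    cases k with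
    | zero => simp [G]
    | succ k => simp [G, coeff_succ_mul_X, coeff_one, pow_succ]
  let s : ι → ℕ → ℂ := fun i k => coeff k (G i * d i)
  have hs : ∀ k, Bs fun i => s i k := hG.mul hd
  have hs0 : ∀ i, s i 0 = 1 := fun i => by
    simp only [s, coeff_mul, Finset.Nat.antidiagonal_zero, sum_singleton, hd0]; simp [G]
  have hds : ∀ i k, coeff (k + 1) (d i) = s i (k + 1) - κ i * s i k := by
    intro i k
    have : d i = G i * d i - C (κ i) * (X * (G i * d i)) := by
      linear_combination (-d i) * hG1 i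
    conv_lhs => rw [this]
    rw [map_sub, coeff_C_mul, coeff_succ_X_mul]
  have he' : Bd fun i => e i + th (C (κ i) * X * u i * G i * d i) :=
    he.add (((((Bd.C hκb).mul (Bd.const X)).mul hu).mul hG).mul hd).th
  have hd' : ∀ i k, coeff (k + 1) (d' i) = coeff (k + 1) (d i) + (η i : ℝ) *
      (-((k + 1) * (s i (k + 1) + κ i * s i k)) +
        η i * coeff (k + 1) (e i + th (C (κ i) * X * u i * G i * d i))) := by
    intro i k
    have e1 : u i * d i = (G i * d i + C (κ i) * (X * (G i * d i))) -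
        C (η i : ℂ) * (C (κ i) * X * u i * G i * d i) := by
      have := hu' i
      rw [map_mul, map_sub, map_one] at this
      linear_combination (G i * d i) * this - (u i * d i) * hG1 i
    rw [h i, e1, th_sub, th_mul (C (η i : ℂ)), th_C, ← map_pow]
    simp only [map_add, map_sub, coeff_C_mul, zero_mul, zero_add, coeff_th (G i * d i + _),
      coeff_succ_X_mul, s]
    push_cast
    ring
  have term : ∀ k, k < n → ∃ R : ι → ℝ, Bs R ∧ ∀ i,
      (tau n (k + 1)).eval (x' i) * ((‖coeff (k + 1) (d' i)‖ ^ 2 - 4) / (k + 1)) =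
      (tau n (k + 1)).eval (x i) * ((‖coeff (k + 1) (d i)‖ ^ 2 - 4) / (k + 1)) +
      η i * ((Lam n ((k + 1 : ℕ) : ℤ)).eval (x i) * (‖s i (k + 1) - κ i * s i k‖ ^ 2 - 4) -
        2 * (tau n (k + 1)).eval (x i) * ((s i (k + 1) - κ i * s i k) *
          (starRingEnd ℂ) (s i (k + 1) + κ i * s i k)).re) + η i ^ 2 * R i := by
    intro k hk
    obtain ⟨r, hr, h1⟩ := poly_taylor hx (hη.mul hx') (tau n (k + 1))
    have hQ : Bs fun i => s i (k + 1) + κ i * s i k := (hs _).add (hκb.mul (hs _))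
    have hZ : Bs fun i => -((k + 1) * (s i (k + 1) + κ i * s i k)) +
        η i * coeff (k + 1) (e i + th (C (κ i) * X * u i * G i * d i)) :=
      (((Bs.const (-(k + 1 : ℂ))).mul hQ).congr fun i => by ring).add (hη.ofReal.mul (he' _))
    set a : ι → ℝ := fun i => ‖coeff (k + 1) (d i)‖ ^ 2 - 4 with ha
    set ρ : ι → ℝ := fun i => (coeff (k + 1) (d i) *
      (starRingEnd ℂ) (s i (k + 1) + κ i * s i k)).re with hρ
    set r1 : ι → ℝ := fun i => 2 * (coeff (k + 1) (d i) * (starRingEnd ℂ)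
      (coeff (k + 1) (e i + th (C (κ i) * X * u i * G i * d i)))).re +
      ‖-((k + 1) * (s i (k + 1) + κ i * s i k)) +
        η i * coeff (k + 1) (e i + th (C (κ i) * X * u i * G i * d i))‖ *
      ‖-((k + 1) * (s i (k + 1) + κ i * s i k)) +
        η i * coeff (k + 1) (e i + th (C (κ i) * X * u i * G i * d i))‖ with hr1
    set r2 : ι → ℝ := fun i => (Polynomial.derivative (tau n (k + 1))).eval (x i) * x' i +
      x' i * x' i * r i with hr2
    set T : ι → ℝ := fun i => (tau n (k + 1)).eval (x i) with hT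
    set L : ι → ℝ := fun i => (Lam n ((k + 1 : ℕ) : ℤ)).eval (x i) with hL
    have ba : Bs a := (((hd _).norm.mul (hd _).norm).sub (Bs.const 4)).congr fun i => by
      simp only [ha]; ring
    have bρ : Bs ρ := ((hd _).mul hQ.conj).re
    have br1 : Bs r1 := ((Bs.const 2).mul ((hd _).mul (he' _).conj).re).add (hZ.norm.mul hZ.norm)
    have br2 : Bs r2 := ((hx.eval _).mul hx').add ((hx'.mul hx').mul hr)
    have bT : Bs T := hx.eval _
    have bL : Bs L := hx.eval _
    have q1 : ∀ i, ‖coeff (k + 1) (d' i)‖ ^ 2 - 4 =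
        a i - 2 * η i * (k + 1) * ρ i + η i ^ 2 * r1 i := by
      intro i
      rw [hd' i k, norm_sq_add]
      simp only [ha, hρ, hr1, map_add, map_neg, map_mul, Complex.conj_ofReal, map_natCast, map_one,
        Complex.add_re, Complex.add_im, Complex.mul_re, Complex.mul_im, Complex.neg_re,
        Complex.neg_im, Complex.ofReal_re, Complex.ofReal_im, Complex.natCast_re,
        Complex.natCast_im, Complex.one_re, Complex.one_im]
      ring
    have q2 : ∀ i, (tau n (k + 1)).eval (x' i) = T i + η i * (k + 1) * L i + η i ^ 2 * r2 i := by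
      intro i
      have e1 : x' i = x i + η i * x' i := by linear_combination hxx i
      have e2 := congrArg (Polynomial.eval (x i)) (tau_deriv (n := n) (k := k + 1) (by omega))
      simp only [Polynomial.eval_mul, Polynomial.eval_X, Polynomial.eval_natCast] at e2
      push_cast at e2
      conv_lhs => rw [e1, h1 i]
      simp only [hT, hL, hr2]
      push_cast
      linear_combination η i * e2 + η i * (Polynomial.derivative (tau n (k + 1))).eval (x i) * e1
    refine ⟨fun i => (T i * r1 i + (k + 1) * L i * (-2 * (k + 1) * ρ i + η i * r1 i) +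
      r2 i * (a i - 2 * η i * (k + 1) * ρ i + η i * η i * r1 i)) * ((k : ℝ) + 1)⁻¹,
      (((bT.mul br1).add (((Bs.const _).mul bL).mul (((Bs.const _).mul bρ).add (hη.mul br1)))).add
        (br2.mul ((ba.sub ((((Bs.const _).mul hη).mul (Bs.const _)).mul bρ)).add
          ((hη.mul hη).mul br1)))).mul (Bs.const _), fun i => ?_⟩
    rw [q1, q2, ← hds]
    change _ = T i * (a i / (k + 1)) + η i * (L i * a i - 2 * T i * ρ i) + _
    field_simp
    ring
  choose! R hR hR' using term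
  obtain ⟨c, hc0, hc⟩ := (Bs.sum (range n) fun k hk => hR k (mem_range.mp hk)).le
  refine ⟨c, hc0, fun i => ?_⟩
  unfold Psi
  rw [sum_congr rfl fun k hk => hR' k (mem_range.mp hk) i, sum_add_distrib, sum_add_distrib,
    ← mul_sum, ← mul_sum]
  have m1 := mul_le_mul_of_nonneg_left (main_ineq n (hx0 i) (hx1 i) (s i) (hs0 i) (hκ i)) (hη0 i)
  have m2 := mul_le_mul_of_nonneg_left (hc i) (sq_nonneg (η i))
  linarith

theorem psi_last (n : ℕ) {x x' η y : ι → ℝ} {d d' e : ι → ℂ⟦X⟧} (hx : Bs x) (hy : Bs y)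
    (hη : Bs η) (hxx : ∀ i, x' i = x i + η i * y i) (hη0 : ∀ i, 0 ≤ η i)
    (hd : Bd d) (he : Bd e) (h : ∀ i, d' i = d i + C (η i : ℂ) * e i) :
    ∃ c : ℝ, 0 ≤ c ∧ ∀ i, Psi n (x' i) (d' i) ≤ Psi n (x i) (d i) + η i * c := by
  have term : ∀ k, ∃ R : ι → ℝ, Bs R ∧ ∀ i,
      (tau n (k + 1)).eval (x' i) * ((‖coeff (k + 1) (d' i)‖ ^ 2 - 4) / (k + 1)) =
      (tau n (k + 1)).eval (x i) * ((‖coeff (k + 1) (d i)‖ ^ 2 - 4) / (k + 1)) + η i * R i := by
    intro k
    obtain ⟨r, hr, h1⟩ := poly_taylor hx (hη.mul hy) (tau n (k + 1))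
    set r1 : ι → ℝ := fun i => 2 * (coeff (k + 1) (d i) * (starRingEnd ℂ)
      (coeff (k + 1) (e i))).re + η i * (‖coeff (k + 1) (e i)‖ * ‖coeff (k + 1) (e i)‖) with hr1
    set r2 : ι → ℝ := fun i => (Polynomial.derivative (tau n (k + 1))).eval (x i) * y i +
      η i * y i * y i * r i with hr2
    have br1 : Bs r1 := ((Bs.const 2).mul ((hd _).mul (he _).conj).re).add
      (hη.mul ((he _).norm.mul (he _).norm))
    have br2 : Bs r2 := ((hx.eval _).mul hy).add (((hη.mul hy).mul hy).mul hr)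
    refine ⟨fun i => ((tau n (k + 1)).eval (x i) * r1 i + r2 i *
      (‖coeff (k + 1) (d i)‖ * ‖coeff (k + 1) (d i)‖ - 4 + η i * r1 i)) * ((k : ℝ) + 1)⁻¹,
      (((hx.eval _).mul br1).add (br2.mul ((((hd _).norm.mul (hd _).norm).sub (Bs.const _)).add
        (hη.mul br1)))).mul (Bs.const _), fun i => ?_⟩
    rw [h i, map_add, coeff_C_mul, norm_sq_add, hxx i, h1 i]
    simp only [hr1, hr2]
    field_simp
    ring
  choose R hR hR' using term
  obtain ⟨c, hc0, hc⟩ := (Bs.sum (range n) fun k _ => hR k).le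
  refine ⟨c, hc0, fun i => ?_⟩
  unfold Psi
  rw [sum_congr rfl fun k _ => hR' k i, sum_add_distrib, ← mul_sum]
  have m2 := mul_le_mul_of_nonneg_left (hc i) (hη0 i)
  linarith

end Pool.Agent.P.MP_c09211_an
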