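import Mathlib

/-!
Taylor series of germs at the origin, and bounded families of power series.
-/

set_option autoImplicit false

namespace Pool.Agent.P.MP_c09211_an

open Finset PowerSeries Filter Topology

/-- The Taylor series at the origin. -/
noncomputable def tay (h : ℂ → ℂ) : ℂ⟦X⟧ :=
  PowerSeries.mk fun k => iteratedDeriv k h 0 / k.factorial

theorem tay_congr {f g : ℂ → ℂ} (h : f =ᶠ[𝓝 0] g) : tay f = tay g := by
  ext k
  simp only [tay, coeff_mk, h.iteratedDeriv_eq k]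

theorem tay_add {f g : ℂ → ℂ} (hf : AnalyticAt ℂ f 0) (hg : AnalyticAt ℂ g 0) :
    tay (fun z => f z + g z) = tay f + tay g := by
  ext k
  simp only [tay, coeff_mk, map_add]
  rw [← add_div, ← iteratedDeriv_add hf.contDiffAt hg.contDiffAt]
  rfl

theorem tay_mul {f g : ℂ → ℂ} (hf : AnalyticAt ℂ f 0) (hg : AnalyticAt ℂ g 0) :
    tay (fun z => f z * g z) = tay f * tay g := by
  ext k
  simp only [tay, coeff_mk, coeff_mul]
  rw [iteratedDeriv_fun_mul hf.contDiffAt hg.contDiffAt, Finset.Nat.sum_antidiagonal_eq_sum_range_succ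
    (fun i j => iteratedDeriv i f 0 / i.factorial * (iteratedDeriv j g 0 / j.factorial)), sum_div]
  refine sum_congr rfl fun i hi => ?_
  have hi' : i ≤ k := Nat.lt_succ_iff.mp (mem_range.mp hi)
  have h := Nat.choose_mul_factorial_mul_factorial hi'
  have h1 : (i.factorial : ℂ) ≠ 0 := by exact_mod_cast i.factorial_ne_zero
  have h2 : ((k - i).factorial : ℂ) ≠ 0 := by exact_mod_cast (k - i).factorial_ne_zero
  have h3 : (k.choose i : ℂ) ≠ 0 := by exact_mod_cast (Nat.choose_pos hi').ne'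
  rw [← h]
  push_cast
  field_simp

theorem tay_const (c : ℂ) : tay (fun _ => c) = C c := by
  ext k
  simp only [tay, coeff_mk, iteratedDeriv_const, coeff_C]
  split_ifs with h
  · simp [h]
  · simp

theorem tay_id : tay (fun z => z) = X := by
  ext k
  simp only [tay, coeff_mk, iteratedDeriv_fun_id_zero, coeff_X]
  split_ifs with h
  · simp [h]
  · simp

theorem tay_pow {f : ℂ → ℂ} (hf : AnalyticAt ℂ f 0) (n : ℕ) :
    tay (fun z => f z ^ n) = tay f ^ n := by
  induction n with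
  | zero => simpa using tay_const 1
  | succ n ih =>
    simp only [pow_succ]
    rw [tay_mul (hf.fun_pow n) hf, ih]

theorem tay_sum {ι : Type} (s : Finset ι) {f : ι → ℂ → ℂ} (hf : ∀ i ∈ s, AnalyticAt ℂ (f i) 0) :
    tay (fun z => ∑ i ∈ s, f i z) = ∑ i ∈ s, tay (f i) := by
  classical
  induction s using Finset.induction_on with
  | empty => simpa using tay_const 0
  | insert a s ha ih =>
    simp only [sum_insert ha]
    rw [tay_add (hf a (mem_insert_self _ _))
      (Finset.analyticAt_fun_sum _ fun i hi => hf i (mem_insert_of_mem hi)),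
      ih fun i hi => hf i (mem_insert_of_mem hi)]

theorem tay_cmul (c : ℂ) {f : ℂ → ℂ} (hf : AnalyticAt ℂ f 0) :
    tay (fun z => c * f z) = C c * tay f := by
  rw [tay_mul analyticAt_const hf, tay_const]

theorem tay_coeff_zero (f : ℂ → ℂ) : coeff 0 (tay f) = f 0 := by simp [tay]

theorem tay_coeff_one (f : ℂ → ℂ) : coeff 1 (tay f) = deriv f 0 := by simp [tay]

theorem tay_poly (P : Polynomial ℂ) : tay (fun z => P.eval z) = (P : ℂ⟦X⟧) := by
  induction P using Polynomial.induction_on' with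
  | add p q hp hq =>
    simp only [Polynomial.eval_add]
    rw [tay_add (p.differentiable.analyticAt 0) (q.differentiable.analyticAt 0), hp, hq,
      Polynomial.coe_add]
  | monomial n a =>
    simp only [Polynomial.eval_monomial]
    rw [tay_cmul a (f := fun z => z ^ n) (by fun_prop), tay_pow (f := fun z => z) (by fun_prop),
      tay_id,
      ← Polynomial.C_mul_X_pow_eq_monomial]
    simp

theorem tay_comp {F w : ℂ → ℂ} (hF : AnalyticAt ℂ F 0) (hw : AnalyticAt ℂ w 0) (h0 : w 0 = 0)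
    (N : ℕ) : ∃ E, tay (fun z => F (w z)) =
      ∑ j ∈ range N, C (coeff j (tay F)) * tay w ^ j + tay w ^ N * E := by
  obtain ⟨e, he, h⟩ := hF.exists_eq_sum_add_pow_mul N
  have hew : AnalyticAt ℂ (fun z => e (w z)) 0 := AnalyticAt.comp (by rwa [h0]) hw
  refine ⟨tay fun z => e (w z), ?_⟩
  have : (fun z => F (w z)) = fun z => (∑ j ∈ range N, coeff j (tay F) * w z ^ j) +
      w z ^ N * e (w z) := by
    funext z
    rw [h (w z), smul_eq_mul]
    congr 1
    refine sum_congr rfl fun j _ => ?_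
    simp only [tay, coeff_mk, smul_eq_mul]
    ring
  rw [this, tay_add (Finset.analyticAt_fun_sum _ fun j _ => analyticAt_const.fun_mul (hw.fun_pow j))
    ((hw.fun_pow N).fun_mul hew), tay_sum _ fun j _ => analyticAt_const.fun_mul (hw.fun_pow j),
    tay_mul (hw.fun_pow N) hew, tay_pow hw]
  congr 1
  exact sum_congr rfl fun j _ => by rw [tay_cmul _ (hw.fun_pow j), tay_pow hw]

theorem tay_bound {f : ℂ → ℂ} {M : ℝ} (hf : DifferentiableOn ℂ f (Metric.ball 0 1))
    (hM : ∀ z ∈ Metric.sphere (0 : ℂ) (1 / 2), ‖f z‖ ≤ M) (k : ℕ) :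
    ‖coeff k (tay f)‖ ≤ M * 2 ^ k := by
  have h := Complex.norm_iteratedDeriv_le_of_forall_mem_sphere_norm_le k (by norm_num)
    ((hf.mono (by
      rw [closure_ball _ (by norm_num)]
      exact Metric.closedBall_subset_ball (by norm_num))).diffContOnCl) hM
  have h1 : (0 : ℝ) < k.factorial := by exact_mod_cast k.factorial_pos
  simp only [tay, coeff_mk, norm_div, Complex.norm_natCast]
  rw [div_le_iff₀ h1]
  refine h.trans (le_of_eq ?_)
  rw [one_div, inv_pow]
  field_simp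

/-- The Euler operator `X d/dX`. -/
noncomputable def th (S : ℂ⟦X⟧) : ℂ⟦X⟧ := X * d⁄dX ℂ S

theorem coeff_th (S : ℂ⟦X⟧) (k : ℕ) : coeff k (th S) = k * coeff k S := by
  unfold th
  cases k with
  | zero => simp
  | succ k => rw [coeff_succ_X_mul, coeff_derivative]; push_cast; ring

theorem th_add (S T : ℂ⟦X⟧) : th (S + T) = th S + th T := by simp [th, mul_add]

theorem th_sub (S T : ℂ⟦X⟧) : th (S - T) = th S - th T := by simp [th, mul_sub]

theorem th_mul (S T : ℂ⟦X⟧) : th (S * T) = th S * T + S * th T := by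
  simp only [th, Derivation.leibniz, smul_eq_mul]; ring

theorem th_C (c : ℂ) : th (C c) = 0 := by simp [th]

theorem th_X : th X = X := by simp [th]

/-- The logarithmic derivative `X F' / F` of a series with a simple zero at the origin. -/
noncomputable def ld (F : ℂ⟦X⟧) : ℂ⟦X⟧ :=
  d⁄dX ℂ F * (PowerSeries.mk fun k => coeff (k + 1) F)⁻¹

theorem ld_mul {F : ℂ⟦X⟧} (h0 : coeff 0 F = 0) (h1 : coeff 1 F ≠ 0) : ld F * F = th F := by
  have h := eq_X_mul_shift_add_const F
  rw [← coeff_zero_eq_constantCoeff_apply, h0, map_zero, add_zero] at h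
  have h2 := PowerSeries.inv_mul_cancel (PowerSeries.mk fun k => coeff (k + 1) F)
    (by rw [← coeff_zero_eq_constantCoeff_apply, coeff_mk]; exact h1)
  unfold ld th
  conv_lhs => rhs; rw [h]
  linear_combination (X * d⁄dX ℂ F) * h2

theorem ld_zero {F : ℂ⟦X⟧} (h0 : coeff 0 F = 0) (h1 : coeff 1 F ≠ 0) : coeff 0 (ld F) = 1 := by
  have h := congrArg (coeff 1) (ld_mul h0 h1)
  rw [coeff_th, coeff_mul, Finset.Nat.sum_antidiagonal_succ'] at h
  simp only [zero_add, Finset.Nat.antidiagonal_zero, sum_singleton, h0, mul_zero,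
    Nat.cast_one] at h
  exact mul_right_cancel₀ h1 h

section fam

variable {ι : Type}

/-- A bounded family of numbers. -/
def Bs {K : Type} [NormedField K] (s : ι → K) : Prop := ∃ c : ℝ, ∀ i, ‖s i‖ ≤ c

/-- A family of power series with bounded coefficients. -/
def Bd (S : ι → ℂ⟦X⟧) : Prop := ∀ k, Bs fun i => coeff k (S i)

theorem Bs.mul {K : Type} [NormedField K] {s t : ι → K} (hs : Bs s) (ht : Bs t) :
    Bs fun i => s i * t i := by
  obtain ⟨a, ha⟩ := hs
  obtain ⟨b, hb⟩ := ht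
  exact ⟨a * b, fun i => by
    rw [norm_mul]; exact mul_le_mul (ha i) (hb i) (norm_nonneg _) ((norm_nonneg _).trans (ha i))⟩

theorem Bs.add {K : Type} [NormedField K] {s t : ι → K} (hs : Bs s) (ht : Bs t) :
    Bs fun i => s i + t i := by
  obtain ⟨a, ha⟩ := hs
  obtain ⟨b, hb⟩ := ht
  exact ⟨a + b, fun i => (norm_add_le _ _).trans (add_le_add (ha i) (hb i))⟩

theorem Bs.sub {K : Type} [NormedField K] {s t : ι → K} (hs : Bs s) (ht : Bs t) :
    Bs fun i => s i - t i := by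
  obtain ⟨a, ha⟩ := hs
  obtain ⟨b, hb⟩ := ht
  exact ⟨a + b, fun i => (norm_sub_le _ _).trans (add_le_add (ha i) (hb i))⟩

theorem Bs.congr {K : Type} [NormedField K] {s t : ι → K} (hs : Bs s) (h : ∀ i, s i = t i) :
    Bs t := (funext h : s = t) ▸ hs

theorem Bs.const {K : Type} [NormedField K] (c : K) : Bs fun _ : ι => c := ⟨‖c‖, fun _ => le_rfl⟩

theorem Bs.sum {K : Type} [NormedField K] {κ : Type} (s : Finset κ) {f : κ → ι → K}
    (hf : ∀ j ∈ s, Bs (f j)) : Bs fun i => ∑ j ∈ s, f j i := by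
  classical
  induction s using Finset.induction_on with
  | empty => simpa using Bs.const 0
  | insert a s ha ih =>
    simp only [sum_insert ha]
    exact (hf a (mem_insert_self _ _)).add (ih fun j hj => hf j (mem_insert_of_mem hj))

theorem Bd.add {S T : ι → ℂ⟦X⟧} (hS : Bd S) (hT : Bd T) : Bd fun i => S i + T i := fun k => by
  simpa only [map_add] using (hS k).add (hT k)

theorem Bd.sub {S T : ι → ℂ⟦X⟧} (hS : Bd S) (hT : Bd T) : Bd fun i => S i - T i := fun k => by
  simpa only [map_sub] using (hS k).sub (hT k)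

theorem Bd.mul {S T : ι → ℂ⟦X⟧} (hS : Bd S) (hT : Bd T) : Bd fun i => S i * T i := fun k => by
  simp only [coeff_mul]
  exact Bs.sum _ fun p _ => (hS p.1).mul (hT p.2)

theorem Bd.const (S : ℂ⟦X⟧) : Bd fun _ : ι => S := fun _ => Bs.const _

theorem Bd.C {s : ι → ℂ} (hs : Bs s) : Bd fun i => C (s i) := fun k => by
  simp only [coeff_C]
  split_ifs
  · exact hs
  · exact Bs.const _

theorem Bd.th {S : ι → ℂ⟦X⟧} (hS : Bd S) : Bd fun i => th (S i) := fun k => by
  simp only [coeff_th]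
  exact (Bs.const _).mul (hS k)

theorem Bd.pow {S : ι → ℂ⟦X⟧} (hS : Bd S) (n : ℕ) : Bd fun i => S i ^ n := by
  induction n with
  | zero => simpa using Bd.const 1
  | succ n ih => simpa only [pow_succ] using ih.mul hS

theorem Bd.sum {κ : Type} (s : Finset κ) {S : κ → ι → ℂ⟦X⟧} (hS : ∀ j ∈ s, Bd (S j)) :
    Bd fun i => ∑ j ∈ s, S j i := fun k => by
  simp only [map_sum]
  exact Bs.sum _ fun j hj => hS j hj k

theorem Bd.div {Y G B : ι → ℂ⟦X⟧} (hG : Bd G) (hB : Bd B) (h : ∀ i, Y i * G i = B i)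
    (h0 : ∀ i, coeff 0 (G i) = 0) (h1 : ∀ i, 1 ≤ ‖coeff 1 (G i)‖) : Bd Y := by
  intro k
  induction k using Nat.strong_induction_on with
  | _ k ih =>
    have e : ∀ i, coeff k (Y i) = (coeff (k + 1) (B i) -
        ∑ j ∈ range k, coeff j (Y i) * coeff (k + 1 - j) (G i)) * (coeff 1 (G i))⁻¹ := by
      intro i
      have hne : coeff 1 (G i) ≠ 0 := norm_pos_iff.mp (by linarith [h1 i])
      rw [← h i, coeff_mul, Finset.Nat.sum_antidiagonal_eq_sum_range_succ
        (fun a b => coeff a (Y i) * coeff b (G i)), sum_range_succ, sum_range_succ, Nat.sub_self,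
        h0, Nat.add_sub_cancel_left]
      field_simp
      ring
    simp only [e]
    refine Bs.mul ((hB _).sub (Bs.sum _ fun j hj => (ih j (mem_range.mp hj)).mul (hG _)))
      ⟨1, fun i => ?_⟩
    rw [norm_inv]
    exact inv_le_one_of_one_le₀ (h1 i)

theorem pow_expand {η : ι → ℂ} {u : ι → ℂ⟦X⟧} (hη : Bs η) (hu : Bd u) (j : ℕ) :
    ∃ E : ι → ℂ⟦X⟧, Bd E ∧ ∀ i, (1 - C (η i) * u i) ^ j =
      1 - j * (C (η i) * u i) + C (η i) ^ 2 * E i := by
  induction j with
  | zero => exact ⟨fun _ => 0, Bd.const _, fun i => by simp⟩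
  | succ j ih =>
    obtain ⟨E, hE, h⟩ := ih
    refine ⟨fun i => E i * (1 - C (η i) * u i) + j * u i ^ 2,
      (hE.mul ((Bd.const 1).sub ((Bd.C hη).mul hu))).add ((Bd.const _).mul (hu.pow 2)),
      fun i => ?_⟩
    rw [pow_succ, h i]
    push_cast
    ring

theorem trunc_eq (F : ℂ⟦X⟧) (N : ℕ) (c : ℕ → ℂ) {k : ℕ} (hk : k < N) :
    coeff k (∑ j ∈ range N, C (c j * coeff j F) * X ^ j) = c k * coeff k F := by
  simp only [map_sum, coeff_C_mul_X_pow]
  rw [sum_eq_single k (fun j _ hj => if_neg hj.symm) (fun h => absurd (mem_range.mpr hk) h),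
    if_pos rfl]

theorem comp_expand {η : ι → ℂ} {u F G : ι → ℂ⟦X⟧} (hη : Bs η) (hη0 : ∀ i, η i ≠ 0) (hu : Bd u)
    (hF : Bd F) (h : ∀ i N, ∃ E, G i = ∑ j ∈ range N, C (coeff j (F i)) *
      (X * (1 - C (η i) * u i)) ^ j + (X * (1 - C (η i) * u i)) ^ N * E) :
    ∃ E : ι → ℂ⟦X⟧, Bd E ∧ ∀ i, G i = F i - C (η i) * u i * th (F i) + C (η i) ^ 2 * E i := by
  have hC : ∀ i, C ((η i)⁻¹) * C (η i) = (1 : ℂ⟦X⟧) := fun i => by
    rw [← map_mul, inv_mul_cancel₀ (hη0 i), map_one]
  refine ⟨fun i => C ((η i)⁻¹) ^ 2 * (G i - F i + C (η i) * u i * th (F i)), fun k => ?_,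
    fun i => ?_⟩
  · choose E hE hE' using fun j => pow_expand hη hu j
    have hb : Bd fun i => ∑ j ∈ range (k + 1), C (coeff j (F i)) * X ^ j * E j i :=
      Bd.sum _ fun j _ => ((Bd.C (hF j)).mul (Bd.const _)).mul (hE j)
    refine (hb k).congr fun i => ?_
    obtain ⟨E1, h1⟩ := h i (k + 1)
    have d1 : X ^ (k + 1) ∣ F i - ∑ j ∈ range (k + 1), C (coeff j (F i)) * X ^ j :=
      X_pow_dvd_iff.mpr fun m hm => by
        have := trunc_eq (F i) (k + 1) (fun _ => 1) hm
        simp only [one_mul] at this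
        rw [map_sub, this, sub_self]
    have d2 : X ^ (k + 1) ∣ th (F i) - ∑ j ∈ range (k + 1), C (j * coeff j (F i)) * X ^ j :=
      X_pow_dvd_iff.mpr fun m hm => by
        rw [map_sub, trunc_eq (F i) (k + 1) (fun j => j) hm, coeff_th, sub_self]
    obtain ⟨R1, d1⟩ := d1
    obtain ⟨R2, d2⟩ := d2
    have e : ∑ j ∈ range (k + 1), C (coeff j (F i)) * (X * (1 - C (η i) * u i)) ^ j =
        ∑ j ∈ range (k + 1), C (coeff j (F i)) * X ^ j -
        C (η i) * u i * ∑ j ∈ range (k + 1), C (j * coeff j (F i)) * X ^ j +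
        C (η i) ^ 2 * ∑ j ∈ range (k + 1), C (coeff j (F i)) * X ^ j * E j i := by
      rw [mul_sum, mul_sum, ← sum_sub_distrib, ← sum_add_distrib]
      refine sum_congr rfl fun j _ => ?_
      rw [mul_pow, hE' j i, map_mul, map_natCast]
      ring
    have d3 : X ^ (k + 1) ∣ ∑ j ∈ range (k + 1), C (coeff j (F i)) * X ^ j * E j i -
        C ((η i)⁻¹) ^ 2 * (G i - F i + C (η i) * u i * th (F i)) := by
      refine ⟨-(C ((η i)⁻¹) ^ 2 * ((1 - C (η i) * u i) ^ (k + 1) * E1 - R1 +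
        C (η i) * u i * R2)), ?_⟩
      rw [h1, e, mul_pow]
      linear_combination (-(C ((η i)⁻¹) * C (η i) + 1) *
        ∑ j ∈ range (k + 1), C (coeff j (F i)) * X ^ j * E j i) * hC i +
        C ((η i)⁻¹) ^ 2 * d1 - C ((η i)⁻¹) ^ 2 * C (η i) * u i * d2
    have := X_pow_dvd_iff.mp d3 k (Nat.lt_succ_self k)
    rwa [map_sub, sub_eq_zero] at this
  · linear_combination (-(C ((η i)⁻¹) * C (η i) + 1) *
      (G i - F i + C (η i) * u i * th (F i))) * hC i

theorem ld_expand {η : ι → ℂ} {u F G : ι → ℂ⟦X⟧} (hη : Bs η) (hη0 : ∀ i, η i ≠ 0) (hu : Bd u)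
    (hF : Bd F) (h : ∀ i N, ∃ E, G i = ∑ j ∈ range N, C (coeff j (F i)) *
      (X * (1 - C (η i) * u i)) ^ j + (X * (1 - C (η i) * u i)) ^ N * E)
    (hF0 : ∀ i, coeff 0 (F i) = 0) (hF1 : ∀ i, 1 ≤ ‖coeff 1 (F i)‖)
    (hG0 : ∀ i, coeff 0 (G i) = 0) (hG1 : ∀ i, 1 ≤ ‖coeff 1 (G i)‖) :
    Bd (fun i => ld (F i)) ∧ ∃ e : ι → ℂ⟦X⟧, Bd e ∧ ∀ i, ld (G i) =
      ld (F i) - C (η i) * th (u i * ld (F i)) + C (η i) ^ 2 * e i := by
  obtain ⟨E, hE, hG⟩ := comp_expand hη hη0 hu hF h
  have hC : ∀ i, C ((η i)⁻¹) * C (η i) = (1 : ℂ⟦X⟧) := fun i => by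
    rw [← map_mul, inv_mul_cancel₀ (hη0 i), map_one]
  have l1 := fun i => ld_mul (hF0 i) (norm_pos_iff.mp (by linarith [hF1 i]))
  have l2 := fun i => ld_mul (hG0 i) (norm_pos_iff.mp (by linarith [hG1 i]))
  have hd : Bd fun i => ld (F i) := Bd.div hF hF.th l1 hF0 hF1
  have hGb : Bd G := by
    have := (hF.sub (((Bd.C hη).mul hu).mul hF.th)).add (((Bd.C hη).pow 2).mul hE)
    simpa only [← hG] using this
  refine ⟨hd, fun i => C ((η i)⁻¹) ^ 2 * (ld (G i) - ld (F i) + C (η i) * th (u i * ld (F i))),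
    Bd.div hGb (((hE.th.sub (hd.mul hE)).sub ((((hu.mul hd).th.mul hu).mul hd).mul hF)).add
      (((Bd.C hη).mul (hu.mul hd).th).mul hE)) (fun i => ?_) hG0 hG1, fun i => ?_⟩
  · have t1 : th (G i) = ld (F i) * F i - C (η i) * (th (u i * ld (F i)) * F i +
        u i * ld (F i) * (ld (F i) * F i)) + C (η i) ^ 2 * th (E i) := by
      have t0 : G i = F i - C (η i) * ((u i * ld (F i)) * F i) + C (η i ^ 2) * E i := by
        rw [hG i, ← l1 i, map_pow]; ring
      rw [t0, th_add, th_sub, th_mul (C (η i)), th_mul (C (η i ^ 2)), th_C, th_C,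
        th_mul (u i * ld (F i)), ← l1 i, map_pow]
      ring
    have t2 := hG i
    rw [← l1 i] at t2
    linear_combination C ((η i)⁻¹) ^ 2 * l2 i + C ((η i)⁻¹) ^ 2 * t1 -
      C ((η i)⁻¹) ^ 2 * (ld (F i) - C (η i) * th (u i * ld (F i))) * t2 +
      (C ((η i)⁻¹) * C (η i) + 1) * (th (E i) - ld (F i) * E i -
        th (u i * ld (F i)) * u i * ld (F i) * F i +
        C (η i) * th (u i * ld (F i)) * E i) * hC i
  · linear_combination (-(C ((η i)⁻¹) * C (η i) + 1) *
      (ld (G i) - ld (F i) + C (η i) * th (u i * ld (F i)))) * hC i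

end fam

end Pool.Agent.P.MP_c09211_an
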